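import Pool.Agent.R417.FA.Kump
import Pool.Agent.R417.GE.Ctx
import Pool.Agent.R417.GE.MainB

/-! The relation for the geometric fundamental group. -/

set_option autoImplicit false
set_option linter.unusedVariables false
set_option linter.unusedSectionVars false
set_option linter.style.haveILetI false

namespace Pool.Agent.R417.FA

open IsLocalRing

section

variable {F Ω : Type} [Field F] [Field Ω] [Algebra F Ω] [IsGalois F Ω] {l : ℕ}
  {L : IntermediateField F Ω} {Rb B : Subring Ω} {ζ : Ω} {U : Set F}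

theorem ab [IsSepClosed Ω] (D : Dat2 L Rb B l ζ U) (hl : l.Prime) (σ : Gal(Ω/F))
    (c K : ℕ) (hσ : ∀ z : Ω, z ^ (l ^ K) = 1 → σ z = z ^ c)
    (N : Subgroup L.fixingSubgroup) (hN : IsOpen (N : Set L.fixingSubgroup))
    (hK : ∀ h : L.fixingSubgroup, h ^ (l ^ K) ∈ N)
    (hin : ∀ P : Ideal B, P.IsPrime → ∀ τ : L.fixingSubgroup, Inert B P (τ : Gal(Ω/F)) → τ ∈ N)
    (h : L.fixingSubgroup) (hh : σ * h * σ⁻¹ ∈ L.fixingSubgroup) :
    ∃ y ∈ commutator L.fixingSubgroup, ∃ n ∈ N,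
      (⟨σ * h * σ⁻¹, hh⟩ : L.fixingSubgroup) = h ^ c * y * n := by
  have hcomp : CompactSpace L.fixingSubgroup := isCompact_iff_compactSpace.1
    (InfiniteGalois.fixingSubgroup_isClosed L).isCompact
  have hfin : Finite (L.fixingSubgroup ⧸ N) := N.quotient_finite_of_isOpen hN
  have hsurj : Function.Surjective
      (Abelianization.of : L.fixingSubgroup →* Abelianization L.fixingSubgroup) :=
    QuotientGroup.mk_surjective
  have hidx : (N.map (Abelianization.of :
      L.fixingSubgroup →* Abelianization L.fixingSubgroup)).index ≠ 0 := by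
    intro h0
    have h1 := N.index_map_dvd hsurj
    rw [h0, zero_dvd_iff, Subgroup.index_eq_card, Nat.card_eq_zero] at h1
    rcases h1 with h1 | h1
    · exact h1.elim (QuotientGroup.mk 1)
    · exact h1.not_finite hfin
  have hQ : Finite (Abelianization L.fixingSubgroup ⧸ N.map (Abelianization.of)) := by
    apply Nat.finite_of_card_ne_zero
    rw [← Subgroup.index_eq_card]
    exact hidx
  set π : L.fixingSubgroup →* Abelianization L.fixingSubgroup ⧸ N.map (Abelianization.of) :=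
    (QuotientGroup.mk' (N.map (Abelianization.of))).comp Abelianization.of with hπ
  have hπN : ∀ n ∈ N, π n = 1 := by
    intro n hn
    show QuotientGroup.mk' (N.map (Abelianization.of)) (Abelianization.of n) = 1
    rw [QuotientGroup.mk'_apply, QuotientGroup.eq_one_iff]
    exact ⟨n, hn, rfl⟩
  have hexpd : Monoid.exponent (Abelianization L.fixingSubgroup ⧸ N.map (Abelianization.of)) ∣
      l ^ K := by
    refine Monoid.exponent_dvd_of_forall_pow_eq_one fun x => ?_
    obtain ⟨y, rfl⟩ := QuotientGroup.mk_surjective x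
    obtain ⟨z, rfl⟩ := hsurj y
    have h1 : π z ^ (l ^ K) = 1 := by rw [← map_pow, hπN _ (hK z)]
    exact h1
  have hexp : NeZero ((Monoid.exponent
      (Abelianization L.fixingSubgroup ⧸ N.map (Abelianization.of)) : ℕ) : Ω) := ⟨by
    obtain ⟨d, hd⟩ := hexpd
    intro h0
    have h1 : ((l ^ K : ℕ) : Ω) = 0 := by
      rw [hd, Nat.cast_mul, h0, zero_mul]
    rw [Nat.cast_pow] at h1
    exact pow_ne_zero _ D.dat.ne h1⟩
  have hx : π ((h ^ c)⁻¹ * ⟨σ * h * σ⁻¹, hh⟩) = 1 := by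
    by_contra hne
    obtain ⟨φ, hφ⟩ := CommGroup.exists_apply_ne_one_of_hasEnoughRootsOfUnity
      (Abelianization L.fixingSubgroup ⧸ N.map (Abelianization.of)) Ω hne
    apply hφ
    have h1 := kump D hl σ c K hσ (φ.comp π) (fun h => by
      rw [MonoidHom.comp_apply, ← map_pow, ← map_pow, hπN _ (hK h), map_one]) (by
      refine Subgroup.isOpen_mono (H₁ := N) ?_ hN
      intro n hn
      show φ (π n) = 1
      rw [hπN n hn, map_one]) (fun P hP τ hτ => by
      show φ (π τ) = 1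
      rw [hπN τ (hin P hP τ hτ), map_one]) h hh
    have h2 : φ (π ⟨σ * h * σ⁻¹, hh⟩) = φ (π h) ^ c := h1
    rw [map_mul, map_mul, map_inv, map_inv, map_pow, map_pow, h2, inv_mul_cancel]
  have h2 : Abelianization.of ((h ^ c)⁻¹ * ⟨σ * h * σ⁻¹, hh⟩) ∈
      N.map (Abelianization.of : L.fixingSubgroup →* Abelianization L.fixingSubgroup) := by
    have h3 : QuotientGroup.mk' (N.map (Abelianization.of))
        (Abelianization.of ((h ^ c)⁻¹ * ⟨σ * h * σ⁻¹, hh⟩)) = 1 := hx
    rw [QuotientGroup.mk'_apply, QuotientGroup.eq_one_iff] at h3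
    exact h3
  obtain ⟨n, hn, hn'⟩ := h2
  refine ⟨((h ^ c)⁻¹ * ⟨σ * h * σ⁻¹, hh⟩) * n⁻¹, ?_, n, hn, ?_⟩
  · rw [← Abelianization.ker_of, MonoidHom.mem_ker, map_mul, map_inv, hn', mul_inv_cancel]
  · generalize (⟨σ * h * σ⁻¹, hh⟩ : L.fixingSubgroup) = x
    group

variable {m u n : ℕ} {A : Type} [CommRing A] [IsDomain A] [IsLocalRing A] [IsNoetherianRing A]
  [TopologicalSpace A] {ρ : Gal(Ω/F) →* GL (Fin n) A}
  {a : L.fixingSubgroup → Matrix (Fin n) (Fin n) A} {σ : Gal(Ω/F)}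

theorem hab [IsSepClosed Ω] [hH : L.fixingSubgroup.Normal] (D : Dat2 L Rb B l ζ U)
    (hl : l.Prime) (hm0 : m ≠ 0) (hA : IsAdic (maximalIdeal A))
    (hlA : (l : A) ∈ maximalIdeal A) (hρ : Continuous ρ)
    (hur : ∀ P : Ideal B, P.IsPrime → ∀ τ : L.fixingSubgroup,
      Inert B P (τ : Gal(Ω/F)) → ρ τ = 1)
    (ha : ∀ g : L.fixingSubgroup, (ρ g : Matrix (Fin n) (Fin n) A) = 1 + (l : A) ^ m • a g)
    (c : ℕ) (hσ : ∀ (K : ℕ) (z : Ω), z ^ (l ^ K) = 1 → σ z = z ^ c) (M : ℕ) :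
    ∀ g : L.fixingSubgroup,
      ∃ y ∈ commutator L.fixingSubgroup, ∃ x : L.fixingSubgroup,
        MulAut.conjNormal σ g = g ^ c * y * x ∧
        (ρ x : Matrix (Fin n) (Fin n) A) - 1 ∈
          (maximalIdeal A ^ M) • (⊤ : Submodule A (Matrix (Fin n) (Fin n) A)) := by
  set K := M + m + 1 with hK
  intro g
  let f : L.fixingSubgroup →* GL (Fin n) (A ⧸ maximalIdeal A ^ M) :=
    (Matrix.GeneralLinearGroup.map (Ideal.Quotient.mk (maximalIdeal A ^ M))).comp
      (ρ.comp L.fixingSubgroup.subtype)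
  have hf1 : ∀ g : L.fixingSubgroup, (∀ i j, ((ρ g : Matrix (Fin n) (Fin n) A) - 1) i j ∈
      maximalIdeal A ^ M) → f g = 1 := fun g hg =>
    Pool.Agent.W569.FM.map_eq_one hg
  have hf2 : ∀ g : L.fixingSubgroup, f g = 1 → (ρ g : Matrix (Fin n) (Fin n) A) - 1 ∈
      (maximalIdeal A ^ M) • (⊤ : Submodule A (Matrix (Fin n) (Fin n) A)) := by
    intro g hg
    refine Pool.Agent.W569.UG.mem_smul_top' _ _ fun a b => ?_
    have h2 : Matrix.GeneralLinearGroup.map (Ideal.Quotient.mk (maximalIdeal A ^ M)) (ρ g) =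
        Matrix.GeneralLinearGroup.map (Ideal.Quotient.mk (maximalIdeal A ^ M)) 1 := by
      rw [map_one]
      exact hg
    exact Pool.Agent.W569.FM.ME_of_map_eq h2 a b
  have hopen : IsOpen (f.ker : Set L.fixingSubgroup) := by
    apply Subgroup.isOpen_of_mem_nhds _ (g := (1 : L.fixingSubgroup))
    have h1 := Pool.Agent.W569.FM.eventually_ME hA (ρ.comp L.fixingSubgroup.subtype)
      (hρ.comp continuous_subtype_val) M
    filter_upwards [h1] with g hg
    exact hf1 g hg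
  have hJ : ∀ (J : Ideal A) (Y : Matrix (Fin n) (Fin n) A),
      Y ∈ J • (⊤ : Submodule A (Matrix (Fin n) (Fin n) A)) → ∀ i j, Y i j ∈ J := by
    intro J Y hY i j
    induction hY using Submodule.smul_induction_on' with
    | smul r hr z _ =>
      rw [Matrix.smul_apply]
      exact J.mul_mem_right _ hr
    | add z _ w _ h6 h7 =>
      rw [Matrix.add_apply]
      exact J.add_mem h6 h7
  obtain ⟨y, hy, x, hx, hgx⟩ := ab D hl σ c K (hσ K) f.ker hopen (fun h => by
    refine hf1 _ fun i j => ?_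
    rw [Subgroup.coe_pow, map_pow, Units.val_pow_eq_pow_val]
    have h1 := Pool.Agent.R417.GE.pow_l_mem (Y := (ρ h : Matrix (Fin n) (Fin n) A)) hlA (by
      rw [ha, add_sub_cancel_left]
      exact Submodule.smul_mem_smul (Ideal.pow_mem_of_mem _ hlA _ (Nat.pos_of_ne_zero hm0))
        trivial) K
    have h2 := hJ _ _ h1 i j
    exact Ideal.pow_le_pow_right (by omega) h2) (fun P hP τ hτ => by
    refine hf1 _ fun i j => ?_
    rw [hur P hP τ hτ, Units.val_one, sub_self]
    exact Ideal.zero_mem _) g (Subgroup.Normal.conj_mem inferInstance _ g.2 σ)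
  refine ⟨y, hy, x, ?_, hf2 x hx⟩
  rw [← hgx]
  apply Subtype.ext
  rw [MulAut.conjNormal_apply]

theorem relGeo [IsSepClosed Ω] [hH : L.fixingSubgroup.Normal] (D : Dat2 L Rb B l ζ U)
    (hl : l.Prime) (hm : 2 < l ^ m) (hA : IsAdic (maximalIdeal A))
    (hlA : (l : A) ∈ maximalIdeal A) (hl0 : (l : A) ≠ 0) (hρ : Continuous ρ)
    (hur : ∀ P : Ideal B, P.IsPrime → ∀ τ : L.fixingSubgroup,
      Inert B P (τ : Gal(Ω/F)) → ρ τ = 1)
    (ha : ∀ g : L.fixingSubgroup, (ρ g : Matrix (Fin n) (Fin n) A) = 1 + (l : A) ^ m • a g)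
    (hσ : ∀ (K : ℕ) (z : Ω), z ^ (l ^ K) = 1 → σ z = z ^ (1 + l ^ m * u)) :
    (∀ g, (ρ σ : Matrix (Fin n) (Fin n) A) * a g = a (MulAut.conjNormal σ g) * (ρ σ).1) ∧
      Pool.Agent.R417.GE.Rel0 a (fun g => MulAut.conjNormal σ g) l m u := by
  have hm0 : m ≠ 0 := by
    rintro rfl
    rw [pow_zero] at hm
    omega
  constructor
  · intro g
    have h2 : (ρ σ : Matrix (Fin n) (Fin n) A) * (ρ g : Matrix (Fin n) (Fin n) A) =
        (ρ ((MulAut.conjNormal σ g : L.fixingSubgroup) : Gal(Ω/F)) :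
          Matrix (Fin n) (Fin n) A) * (ρ σ : Matrix (Fin n) (Fin n) A) := by
      rw [← Units.val_mul, ← Units.val_mul, ← map_mul, ← map_mul, MulAut.conjNormal_apply]
      congr 2
      group
    rw [ha, ha, mul_add, add_mul, mul_one, one_mul, add_right_inj, mul_smul_comm,
      smul_mul_assoc] at h2
    have h5 : (l : A) ^ m ≠ 0 := pow_ne_zero _ hl0
    ext i j
    have h6 := congrFun (congrFun h2 i) j
    rw [Matrix.smul_apply, Matrix.smul_apply, smul_eq_mul, smul_eq_mul] at h6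
    exact mul_left_cancel₀ h5 h6
  · intro W hW1 hW2 hW3 g
    exact Pool.Agent.R417.GE.rel0 (H := L.fixingSubgroup) (ρ := ρ) hl hl0 hm ha hW1
      (fun g x hx => by rw [ha]; exact hW2 g x hx) hW3 σ u
      (fun M => ⟨1 + l ^ m * u, rfl, hab D hl hm0 hA hlA hρ hur ha _ hσ M⟩) g

/-- the nilpotency theorem for small rank -/
theorem mainGeo [hH : L.fixingSubgroup.Normal] (D : Dat2 L Rb B l ζ U) (hl : l.Prime)
    {A : Type} [CommRing A] [IsLocalRing A] [IsNoetherianRing A] [TopologicalSpace A]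
    {n : ℕ} {ρ : Gal(Ω/F) →* GL (Fin n) A}
    (hA : IsAdic (maximalIdeal A)) (hfin : Finite (ResidueField A))
    (hpA : (l : A) ∈ maximalIdeal A) (hρ : Continuous ρ)
    (hur : ∀ P : Ideal B, P.IsPrime → ∀ τ : L.fixingSubgroup,
      Inert B P (τ : Gal(Ω/F)) → ρ τ = 1)
    (hres : ∀ g ∈ L.fixingSubgroup, ∃ M : ℕ, ∀ i j,
      (((ρ g : Matrix (Fin n) (Fin n) A) - 1) ^ M) i j ∈ maximalIdeal A)
    (σ : Gal(Ω/F)) (c : ℕ) (hσ : ∀ z : Ω, z ^ l = 1 → σ z = z ^ c)
    (h : n < orderOf (c : ZMod l) ∨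
      Pool.Agent.W569.UG.NoCoset ((ρ σ : Matrix (Fin n) (Fin n) A).map (residue A))
      (c : ResidueField A) (orderOf (c : ZMod l))) :
    (Submodule.span A (Set.range fun g : L.fixingSubgroup =>
      (ρ g : Matrix (Fin n) (Fin n) A) - 1)) ^ (orderOf (c : ZMod l)) = ⊥ := by
  have : Fact l.Prime := ⟨hl⟩
  have hcharA : CharP (ResidueField A) l := by
    have h1 : ((l : ℕ) : ResidueField A) = 0 := by
      have h2 : residue A (l : A) = 0 := (residue_eq_zero_iff _).2 hpA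
      rw [map_natCast] at h2
      exact h2
    exact (CharP.charP_iff_prime_eq_zero hl).2 h1
  have hc0 : ¬ l ∣ c := by
    rintro ⟨d, rfl⟩
    have h1 := hσ ζ D.dat.root.pow_eq_one
    rw [pow_mul, D.dat.root.pow_eq_one, one_pow] at h1
    have h2 : ζ = 1 := by
      apply σ.injective
      rw [h1, map_one]
    exact D.dat.root.ne_one hl.one_lt h2
  have hcz : (c : ZMod l) ≠ 0 := fun h1 => hc0 ((ZMod.natCast_eq_zero_iff c l).1 h1)
  have hl1 : 0 < l - 1 := by
    have := hl.two_le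
    omega
  have hcl : (c : ZMod l) ^ (l - 1) = 1 := ZMod.pow_card_sub_one_eq_one hcz
  have hN1 : 1 ≤ orderOf (c : ZMod l) :=
    Nat.pos_of_dvd_of_pos (orderOf_dvd_of_pow_eq_one hcl) hl1
  have hcop : Nat.Coprime c l := (Nat.coprime_comm.1 ((hl.coprime_iff_not_dvd).2 hc0))
  have hcj : ∀ j, 0 < j → j < orderOf (c : ZMod l) → ¬ c ^ j ≡ 1 [MOD l] := by
    intro j h0 hj h1
    have h2 : (c : ZMod l) ^ j = 1 := by
      have h3 := (ZMod.natCast_eq_natCast_iff _ _ _).2 h1
      rw [Nat.cast_pow, Nat.cast_one] at h3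
      exact h3
    have h3 := Nat.le_of_dvd h0 (orderOf_dvd_of_pow_eq_one h2)
    omega
  have hNC : Pool.Agent.W569.UG.NoCoset ((ρ σ : Matrix (Fin n) (Fin n) A).map (residue A))
      (c : ResidueField A) (orderOf (c : ZMod l)) := by
    rcases h with h | h
    · refine Pool.Agent.W569.UG.noCoset_of_lt _ ?_ _ ?_ h fun j h0 hj h1 => hcj j h0 hj ?_
      · have h1 : IsUnit ((ρ σ : Matrix (Fin n) (Fin n) A).det) :=
          (Matrix.isUnit_iff_isUnit_det _).1 (ρ σ).isUnit
        have h2 : ((ρ σ : Matrix (Fin n) (Fin n) A).map (residue A)).det =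
            residue A ((ρ σ : Matrix (Fin n) (Fin n) A).det) := by
          rw [RingHom.map_det]
          rfl
        rw [h2]
        exact (h1.map (residue A)).ne_zero
      · intro h1
        exact hc0 ((CharP.cast_eq_zero_iff (ResidueField A) l c).1 h1)
      · rw [← Nat.cast_pow, ← Nat.cast_one (R := ResidueField A), CharP.natCast_eq_natCast
          (ResidueField A) l] at h1
        exact h1
    · exact h
  exact Pool.Agent.W569.UG.mainNil
    (Pool.Agent.W45.UGNIL.main Pool.Agent.W349.UG.Prod.main) hl hA hfin hpA hN1 hcop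
    hcj ρ hρ {τ : Gal(Ω/F) | τ ∈ L.fixingSubgroup ∧ ∃ P : Ideal B, P.IsPrime ∧ Inert B P τ}
    (fun τ hτ => by
      obtain ⟨P, hP, hτ⟩ := hτ.2
      exact hur P hP τ hτ) (fun g => hres g g.2) σ hNC (fun f hf hfu g =>
      kum1 D hl σ c hσ f hf (fun P hP τ hτ => hfu τ ⟨τ.2, P, hP, hτ⟩) g
        (Subgroup.Normal.conj_mem inferInstance _ g.2 σ))

end

end Pool.Agent.R417.FA
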