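import Pool.Agent.R417.FA.Frob

/-! Factorial varieties. -/

set_option autoImplicit false
set_option linter.unusedVariables false
set_option linter.unusedSectionVars false
set_option linter.style.haveILetI false

namespace Pool.Agent.R417.FA

open Polynomial

section

/-- a separable closure of the field of fractions of `R` -/
abbrev Om (R : Type) [CommRing R] [IsDomain R] : Type := SeparableClosure (FractionRing R)

/-- the absolute Galois group of the field of fractions of `R` -/
abbrev GG (R : Type) [CommRing R] [IsDomain R] : Type :=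
  Gal(SeparableClosure (FractionRing R)/FractionRing R)

variable (k R : Type) [Field k] [CommRing R] [IsDomain R] [Algebra k R]

/-- the ring generated by `R` and the constants -/
noncomputable def Rg : Subalgebra R (Om R) := Algebra.adjoin R {x : Om R | IsAlgebraic k x}

/-- the field generated by the field of fractions and the constants -/
noncomputable def Lg : IntermediateField (FractionRing R) (Om R) :=
  IntermediateField.adjoin (FractionRing R) {x : Om R | IsAlgebraic k x}

/-- the integral closure of `R` -/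
noncomputable def Bg (R : Type) [CommRing R] [IsDomain R] : Subring (Om R) :=
  (integralClosure R (Om R)).toSubring

/-- the units of `R` -/
def Ug (R : Type) [CommRing R] [IsDomain R] : Set (FractionRing R) :=
  {x | ∃ r : R, IsUnit r ∧ x = algebraMap R (FractionRing R) r}

variable {k R}

instance tower : IsScalarTower k R (Om R) := IsScalarTower.of_algebraMap_eq fun x => by
  rw [IsScalarTower.algebraMap_apply k (FractionRing R) (Om R),
    IsScalarTower.algebraMap_apply k R (FractionRing R),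
    ← IsScalarTower.algebraMap_apply R (FractionRing R) (Om R)]

theorem mem_Bg {x : Om R} : x ∈ Bg R ↔ IsIntegral R x := Iff.rfl

theorem alg_Rg {x : Om R} (hx : IsAlgebraic k x) : x ∈ Rg k R := Algebra.subset_adjoin hx

theorem alg_Lg {x : Om R} (hx : IsAlgebraic k x) : x ∈ Lg k R :=
  IntermediateField.subset_adjoin _ _ hx

theorem Rg_le {x : Om R} (hx : x ∈ Rg k R) : x ∈ Lg k R := by
  unfold Rg at hx
  induction hx using Algebra.adjoin_induction with
  | mem x hx => exact alg_Lg hx
  | algebraMap r =>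
    rw [IsScalarTower.algebraMap_apply R (FractionRing R) (Om R)]
    exact (Lg k R).algebraMap_mem _
  | add x y _ _ hx hy => exact add_mem hx hy
  | mul x y _ _ hx hy => exact mul_mem hx hy

theorem algebraMap_Rg (r : R) : algebraMap (FractionRing R) (Om R)
    (algebraMap R (FractionRing R) r) ∈ Rg k R := by
  rw [← IsScalarTower.algebraMap_apply R (FractionRing R) (Om R)]
  exact (Rg k R).algebraMap_mem r

theorem frac_Lg {x : Om R} (hx : x ∈ Lg k R) :
    ∃ a b : Om R, a ∈ Rg k R ∧ b ∈ Rg k R ∧ b ≠ 0 ∧ x * b = a := by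
  unfold Lg at hx
  induction hx using IntermediateField.adjoin_induction with
  | mem x hx => exact ⟨x, 1, alg_Rg hx, one_mem _, one_ne_zero, mul_one x⟩
  | algebraMap x =>
    obtain ⟨a, b, hb, rfl⟩ := IsFractionRing.div_surjective (A := R) x
    refine ⟨_, _, algebraMap_Rg a, algebraMap_Rg b, ?_, ?_⟩
    · have h1 : algebraMap R (FractionRing R) b ≠ 0 := by
        rw [Ne, IsFractionRing.to_map_eq_zero_iff]
        exact nonZeroDivisors.ne_zero hb
      rwa [Ne, map_eq_zero]
    · have h1 : algebraMap R (FractionRing R) b ≠ 0 := by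
        rw [Ne, IsFractionRing.to_map_eq_zero_iff]
        exact nonZeroDivisors.ne_zero hb
      rw [← map_mul, div_mul_cancel₀ _ h1]
  | add x y _ _ hx hy =>
    obtain ⟨a, b, ha, hb, hb0, hab⟩ := hx
    obtain ⟨c, d, hc, hd, hd0, hcd⟩ := hy
    refine ⟨a * d + c * b, b * d, add_mem (mul_mem ha hd) (mul_mem hc hb), mul_mem hb hd,
      mul_ne_zero hb0 hd0, ?_⟩
    rw [← hab, ← hcd]
    ring
  | inv x _ hx =>
    obtain ⟨a, b, ha, hb, hb0, hab⟩ := hx
    by_cases hx0 : x = 0
    · exact ⟨0, 1, zero_mem _, one_mem _, one_ne_zero, by rw [hx0, inv_zero, zero_mul]⟩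
    · refine ⟨b, a, hb, ha, ?_, ?_⟩
      · rw [← hab]
        exact mul_ne_zero hx0 hb0
      · rw [← hab, ← mul_assoc, inv_mul_cancel₀ hx0, one_mul]
  | mul x y _ _ hx hy =>
    obtain ⟨a, b, ha, hb, hb0, hab⟩ := hx
    obtain ⟨c, d, hc, hd, hd0, hcd⟩ := hy
    refine ⟨a * c, b * d, mul_mem ha hc, mul_mem hb hd, mul_ne_zero hb0 hd0, ?_⟩
    rw [← hab, ← hcd]
    ring

theorem alg_Bg {x : Om R} (hx : IsAlgebraic k x) : x ∈ Bg R := by
  rw [mem_Bg]
  exact hx.isIntegral.tower_top

theorem Rg_Bg {x : Om R} (hx : x ∈ Rg k R) : x ∈ Bg R := by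
  unfold Rg at hx
  induction hx using Algebra.adjoin_induction with
  | mem x hx => exact alg_Bg hx
  | algebraMap r => exact isIntegral_algebraMap
  | add x y _ _ hx hy => exact add_mem hx hy
  | mul x y _ _ hx hy => exact mul_mem hx hy

theorem int_Rg {x : Om R} (hx : x ∈ Bg R) : IsIntegral (Rg k R) x := by
  rw [mem_Bg] at hx
  exact hx.tower_top

theorem pow_alg {x : Om R} {n : ℕ} (hn : n ≠ 0) (h : IsAlgebraic k (x ^ n)) : IsAlgebraic k x :=
  h.of_pow (Nat.pos_of_ne_zero hn)

theorem root_alg {z : Om R} {n : ℕ} (hn : n ≠ 0) (h : z ^ n = 1) : IsAlgebraic k z := by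
  refine pow_alg hn ?_
  rw [h]
  exact isAlgebraic_one

/-- all the data -/
theorem dat2 {l : ℕ} (hl : l.Prime) (hlk : (l : k) ≠ 0)
    (hufd : UniqueFactorizationMonoid (Rg k R))
    (hun : ∀ r ∈ Rg k R, r ≠ 0 → r⁻¹ ∈ Rg k R → ∃ (c : Om R) (x : R), IsAlgebraic k c ∧
      IsUnit x ∧ r = c * algebraMap R (Om R) x) {ζ : Om R} (hζ : IsPrimitiveRoot ζ l) :
    Dat2 (Lg k R) (Rg k R).toSubring (Bg R) l ζ (Ug R) := by
  have hmap : algebraMap k (Om R) (l : k) = (l : Om R) := map_natCast _ _
  have hlΩ : (l : Om R) ≠ 0 := by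
    rw [← hmap, Ne, map_eq_zero]
    exact hlk
  have hne : NeZero (l : Om R) := ⟨hlΩ⟩
  refine ⟨⟨hufd, fun x hx => Rg_le hx, fun x hx => ?_, fun x hx => Rg_Bg (k := k) hx,
    fun x hx => int_Rg (k := k) hx, fun σ x hx => ?_, hζ,
    alg_Rg (root_alg hl.ne_zero hζ.pow_eq_one), ?_, hlΩ⟩, ?_, ?_, ?_, ?_⟩
  · obtain ⟨a, b, ha, hb, hb0, hab⟩ := frac_Lg hx
    exact ⟨⟨a, ha⟩, ⟨b, hb⟩, fun h => hb0 (congrArg Subtype.val h), hab⟩
  · rw [mem_Bg] at hx ⊢
    exact hx.map ((σ : Om R →ₐ[FractionRing R] Om R).restrictScalars R)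
  · have h1 : (l : Om R)⁻¹ = algebraMap k (Om R) ((l : k)⁻¹) := by
      rw [map_inv₀, hmap]
    rw [h1]
    exact alg_Rg (isAlgebraic_algebraMap _)
  · intro r hr
    obtain ⟨s, hs⟩ := hr.exists_right_inv
    have h1 : (r : Om R) * (s : Om R) = 1 := congrArg Subtype.val hs
    have hr0 : (r : Om R) ≠ 0 := left_ne_zero_of_mul_eq_one h1
    have h2 : (r : Om R)⁻¹ = s := inv_eq_of_mul_eq_one_right h1
    obtain ⟨c, x, hc, hx, hrx⟩ := hun r r.2 hr0 (by rw [h2]; exact s.2)
    obtain ⟨d, hd⟩ := IsSepClosed.exists_pow_nat_eq c l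
    have hd0 : d ≠ 0 := by
      rintro rfl
      rw [zero_pow hl.ne_zero] at hd
      apply hr0
      rw [hrx, ← hd, zero_mul]
    refine ⟨d, alg_Lg (pow_alg hl.ne_zero (by rw [hd]; exact hc)), hd0, _, ⟨x, hx, rfl⟩, ?_⟩
    rw [hrx, hd, ← IsScalarTower.algebraMap_apply R (FractionRing R) (Om R)]
  · rintro _ ⟨r, hr, rfl⟩
    obtain ⟨s, hs⟩ := hr.exists_right_inv
    have h1 : algebraMap R (FractionRing R) r * algebraMap R (FractionRing R) s = 1 := by
      rw [← map_mul, hs, map_one]
    refine ⟨left_ne_zero_of_mul_eq_one h1, ?_, ?_⟩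
    · rw [← IsScalarTower.algebraMap_apply R (FractionRing R) (Om R)]
      exact isIntegral_algebraMap
    · rw [← map_inv₀, inv_eq_of_mul_eq_one_right h1,
        ← IsScalarTower.algebraMap_apply R (FractionRing R) (Om R)]
      exact isIntegral_algebraMap
  · intro K z hz
    exact alg_Lg (root_alg (pow_ne_zero _ hl.ne_zero) hz)
  · intro x n hn hx
    rw [mem_Bg] at hx ⊢
    exact IsIntegral.of_pow (Nat.pos_of_ne_zero hn) hx

theorem mem_fix {g : GG R} :
    g ∈ (Lg k R).fixingSubgroup ↔ ∀ x : Om R, IsAlgebraic k x → g x = x := by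
  refine (IntermediateField.mem_fixingSubgroup_iff _ _).trans ?_
  constructor
  · intro h x hx
    exact h x (alg_Lg hx)
  · intro h x hx
    have h1 : Lg k R ≤ IntermediateField.fixedField (Subgroup.zpowers g) := by
      unfold Lg
      rw [IntermediateField.adjoin_le_iff]
      intro z hz
      show z ∈ IntermediateField.fixedField (Subgroup.zpowers g)
      rw [IntermediateField.mem_fixedField_iff]
      intro f hf
      have h2 : Subgroup.zpowers g ≤ MulAction.stabilizer (GG R) z := by
        rw [Subgroup.zpowers_le, MulAction.mem_stabilizer_iff]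
        exact h z hz
      exact h2 hf
    exact (IntermediateField.mem_fixedField_iff _ _).1 (h1 hx) g (Subgroup.mem_zpowers g)

theorem isAlgebraic_map (g : GG R) {x : Om R} (hx : IsAlgebraic k x) : IsAlgebraic k (g x) := by
  obtain ⟨q, hq0, hq⟩ := hx
  refine ⟨q, hq0, ?_⟩
  have h1 := Polynomial.aeval_algHom_apply (g.restrictScalars k : Om R ≃ₐ[k] Om R) x q
  rw [hq, map_zero] at h1
  exact h1

instance normal_fix : ((Lg k R).fixingSubgroup).Normal := by
  refine ⟨fun h hh g => ?_⟩
  rw [mem_fix] at hh ⊢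
  intro z hz
  show g (h (g⁻¹ z)) = z
  rw [hh _ (isAlgebraic_map g⁻¹ hz)]
  show (g * g⁻¹) z = z
  rw [mul_inv_cancel]
  rfl

end

end Pool.Agent.R417.FA
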