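import Pool.Agent.R417.FA.Ab
import Pool.Agent.R417.FA.Setup

/-! Consequences for semisimple and irreducible representations. -/

set_option autoImplicit false
set_option linter.unusedVariables false
set_option linter.unusedSectionVars false
set_option linter.style.haveILetI false

namespace Pool.Agent.R417.FA

open Matrix IsLocalRing

/-- a normal subgroup acting unipotently acts trivially in a semisimple representation -/
theorem trivial_of_semisimple {A Λ : Type} [CommRing A] [Field Λ] [Algebra A Λ]
    (hinj : Function.Injective (algebraMap A Λ)) {n N : ℕ} {G : Type} [Group G] (H : Subgroup G) [hH : H.Normal]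
    (ρ : G →* GL (Fin n) A)
    (hnil : (Submodule.span A (Set.range fun g : H =>
      (ρ g : Matrix (Fin n) (Fin n) A) - 1)) ^ N = ⊥)
    (hss : ∀ W : Submodule Λ (Fin n → Λ),
      (∀ g, ∀ w ∈ W, ((ρ g : Matrix (Fin n) (Fin n) A).map (algebraMap A Λ)) *ᵥ w ∈ W) →
      ∃ W' : Submodule Λ (Fin n → Λ), IsCompl W W' ∧
        ∀ g, ∀ w ∈ W', ((ρ g : Matrix (Fin n) (Fin n) A).map (algebraMap A Λ)) *ᵥ w ∈ W')
    (g : H) : ρ g = 1 := by
  classical
  -- the representation over the fraction field
  let r : G →* Matrix (Fin n) (Fin n) Λ :=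
    (((algebraMap A Λ).mapMatrix : Matrix (Fin n) (Fin n) A →+* Matrix (Fin n) (Fin n) Λ) :
      Matrix (Fin n) (Fin n) A →* Matrix (Fin n) (Fin n) Λ).comp
      ((Units.coeHom (Matrix (Fin n) (Fin n) A)).comp ρ)
  have hr : ∀ g, r g = (ρ g : Matrix (Fin n) (Fin n) A).map (algebraMap A Λ) := fun g => rfl
  have hnil' : ∀ l : List H, l.length = N →
      (l.map fun g : H => r (g : G) - 1).prod = 0 := by
    intro l hl
    have h1 : (l.map fun g : H => (ρ g : Matrix (Fin n) (Fin n) A) - 1).prod ∈
        (Submodule.span A (Set.range fun g : H =>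
          (ρ g : Matrix (Fin n) (Fin n) A) - 1)) ^ N := by
      rw [← hl]
      clear hl
      induction l with
      | nil =>
        rw [List.map_nil, List.prod_nil, List.length_nil, pow_zero]
        exact Submodule.one_le.1 le_rfl
      | cons a l ih =>
        rw [List.map_cons, List.prod_cons, List.length_cons, pow_succ']
        exact Submodule.mul_mem_mul (Submodule.subset_span ⟨a, rfl⟩) ih
    rw [hnil, Submodule.mem_bot] at h1
    have h2 := congrArg (algebraMap A Λ).mapMatrix h1
    rw [map_zero, map_list_prod, List.map_map] at h2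
    rw [← h2]
    congr 1
    refine List.map_congr_left fun g _ => ?_
    show r g - 1 = (algebraMap A Λ).mapMatrix ((ρ g : Matrix (Fin n) (Fin n) A) - 1)
    rw [map_sub, map_one]
    rfl
  let W : Submodule Λ (Fin n → Λ) :=
    { carrier := {w | ∀ h : H, r (h : G) *ᵥ w = w}
      add_mem' := fun {a b} ha hb h => by rw [Matrix.mulVec_add, ha h, hb h]
      zero_mem' := fun h => by rw [Matrix.mulVec_zero]
      smul_mem' := fun c w hw h => by rw [Matrix.mulVec_smul, hw h] }
  have hW : ∀ w, w ∈ W ↔ ∀ h : H, r (h : G) *ᵥ w = w := fun w => Iff.rfl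
  obtain ⟨W', hcompl, hW'⟩ := hss W (fun g w hw => by
    rw [hW] at hw ⊢
    intro h
    rw [← hr]
    have h1 : (h : G) * g = g * (g⁻¹ * h * g) := by group
    rw [Matrix.mulVec_mulVec, ← map_mul, h1, map_mul, ← Matrix.mulVec_mulVec]
    have h2 : g⁻¹ * h * g ∈ H := by
      have h3 := hH.conj_mem h h.2 g⁻¹
      rwa [inv_inv] at h3
    rw [hw ⟨_, h2⟩])
  -- the complement is zero
  have hW'0 : W' = ⊥ := by
    by_contra hne
    obtain ⟨w, hw, hw0⟩ := (Submodule.ne_bot_iff _).1 hne
    -- the largest length with a nonzero value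
    have hex : ∃ m : ℕ, ∀ l : List H, l.length = m →
        (l.map fun g : H => r (g : G) - 1).prod *ᵥ w = 0 :=
      ⟨N, fun l hl => by rw [hnil' l hl, Matrix.zero_mulVec]⟩
    obtain ⟨hm1, hm2⟩ := Nat.find_spec hex, fun m hm => Nat.find_min hex (m := m) hm
    set m := Nat.find hex with hm
    have hm0 : m ≠ 0 := by
      intro h0
      have h1 := Nat.find_spec hex
      rw [← hm, h0] at h1
      have h2 := h1 [] rfl
      rw [List.map_nil, List.prod_nil, Matrix.one_mulVec] at h2
      exact hw0 h2
    obtain ⟨m', hm'⟩ := Nat.exists_eq_succ_of_ne_zero hm0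
    have h1 := Nat.find_min hex (m := m') (by rw [← hm]; omega)
    push Not at h1
    obtain ⟨l, hl, hlw⟩ := h1
    set v := (l.map fun g : H => r (g : G) - 1).prod *ᵥ w with hv
    have hvW : v ∈ W := by
      rw [hW]
      intro h
      have h2 := Nat.find_spec hex (h :: l) (by rw [List.length_cons, hl, ← hm, hm'])
      rw [List.map_cons, List.prod_cons, ← Matrix.mulVec_mulVec, Matrix.sub_mulVec,
        Matrix.one_mulVec, sub_eq_zero] at h2
      exact h2
    have hvW' : v ∈ W' := by
      have h2 : ∀ l : List H, (l.map fun g : H => r (g : G) - 1).prod *ᵥ w ∈ W' := by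
        intro l
        induction l with
        | nil => rw [List.map_nil, List.prod_nil, Matrix.one_mulVec]; exact hw
        | cons a l ih =>
          rw [List.map_cons, List.prod_cons, ← Matrix.mulVec_mulVec, Matrix.sub_mulVec,
            Matrix.one_mulVec]
          exact Submodule.sub_mem _ (hW' _ _ ih) ih
      exact h2 l
    have h3 := hcompl.disjoint
    rw [Submodule.disjoint_def] at h3
    exact hlw (h3 v hvW hvW')
  have hWtop : W = ⊤ := by
    have h1 := hcompl.sup_eq_top
    rw [hW'0, sup_bot_eq] at h1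
    exact h1
  have h1 : r (g : G) = 1 := by
    apply Matrix.ext_of_mulVec_single
    intro i
    have h2 : Pi.single i (1 : Λ) ∈ W := by
      rw [hWtop]
      trivial
    rw [Matrix.one_mulVec]
    exact h2 g
  apply Units.ext
  apply Matrix.map_injective hinj
  show (ρ g : Matrix (Fin n) (Fin n) A).map (algebraMap A Λ) =
    ((1 : Matrix (Fin n) (Fin n) A)).map (algebraMap A Λ)
  rw [← hr, h1, Matrix.map_one _ (map_zero _) (map_one _)]


/-- commutators act trivially on the constants -/
theorem comm_fix {k R : Type} [Field k] [Finite k] [CommRing R] [IsDomain R] [Algebra k R]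
    (g h : GG R) : ∃ x ∈ (Lg k R).fixingSubgroup, g * h = h * g * x := by
  classical
  refine ⟨(h * g)⁻¹ * (g * h), ?_, by group⟩
  rw [mem_fix]
  intro x hx
  letI : Fintype k := Fintype.ofFinite k
  let E : IntermediateField k (Om R) := IntermediateField.adjoin k {x}
  haveI : FiniteDimensional k E := IntermediateField.adjoin.finiteDimensional hx.isIntegral
  haveI : Finite E := Module.finite_of_finite k
  haveI : IsGalois k E := inferInstance
  haveI : IsCyclic Gal(E/k) := inferInstance
  let r : GG R →* Gal(E/k) := (AlgEquiv.restrictNormalHom E).comp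
    (MonoidHom.mk' (fun σ : GG R => (σ.restrictScalars k : Om R ≃ₐ[k] Om R)) (fun a b => rfl))
  have hr : ∀ (σ : GG R) (x : E), ((r σ x : E) : Om R) = σ (x : Om R) := by
    intro σ x
    exact AlgEquiv.restrictNormal_commutes (σ.restrictScalars k : Om R ≃ₐ[k] Om R) E x
  have h1 : r ((h * g)⁻¹ * (g * h)) = 1 := by
    rw [map_mul, map_inv, map_mul, map_mul]
    letI : CommGroup Gal(E/k) := IsCyclic.commGroup
    rw [mul_comm (r h) (r g), inv_mul_cancel]
  have h2 := hr ((h * g)⁻¹ * (g * h)) ⟨x, IntermediateField.mem_adjoin_simple_self k x⟩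
  rw [h1] at h2
  exact h2.symm

/-- an irreducible representation with commutative image over an algebraically closed field -/
theorem irr_comm {A Λ : Type} [CommRing A] [Field Λ] [IsAlgClosed Λ] [Algebra A Λ]
    {n : ℕ} {G : Type} [Group G] (ρ : G →* GL (Fin n) A)
    (hcomm : ∀ g h, ρ g * ρ h = ρ h * ρ g) (hn : n ≠ 0)
    (hirr : ∀ W : Submodule Λ (Fin n → Λ),
      (∀ g, ∀ w ∈ W, ((ρ g : Matrix (Fin n) (Fin n) A).map (algebraMap A Λ)) *ᵥ w ∈ W) →
      W = ⊥ ∨ W = ⊤) : n = 1 := by
  classical
  set r : G → Matrix (Fin n) (Fin n) Λ := fun g =>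
    (ρ g : Matrix (Fin n) (Fin n) A).map (algebraMap A Λ) with hr
  have hrc : ∀ g h, r g * r h = r h * r g := by
    intro g h
    rw [hr]
    simp only []
    rw [← Matrix.map_mul, ← Matrix.map_mul, ← Units.val_mul, ← Units.val_mul, hcomm]
  haveI : Nonempty (Fin n) := ⟨⟨0, Nat.pos_of_ne_zero hn⟩⟩
  -- all matrices are scalar
  have hscal : ∀ g, ∃ c : Λ, ∀ w, r g *ᵥ w = c • w := by
    intro g
    obtain ⟨c, hc⟩ := Module.End.exists_eigenvalue (K := Λ) (V := Fin n → Λ) (Matrix.toLin' (r g))
    have h1 := hirr (Module.End.eigenspace (Matrix.toLin' (r g)) c) (by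
      intro h w hw
      rw [Module.End.mem_eigenspace_iff, Matrix.toLin'_apply] at hw ⊢
      show r g *ᵥ (r h *ᵥ w) = c • (r h *ᵥ w)
      rw [Matrix.mulVec_mulVec, hrc, ← Matrix.mulVec_mulVec, hw, Matrix.mulVec_smul])
    rcases h1 with h1 | h1
    · exact (hc h1).elim
    · refine ⟨c, fun w => ?_⟩
      have h2 : w ∈ Module.End.eigenspace (Matrix.toLin' (r g)) c := by
        rw [h1]
        trivial
      rw [Module.End.mem_eigenspace_iff, Matrix.toLin'_apply] at h2
      exact h2
  let i0 : Fin n := ⟨0, Nat.pos_of_ne_zero hn⟩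
  let v0 : Fin n → Λ := Pi.single i0 1
  have h1 := hirr (Submodule.span Λ {v0}) (by
    intro g w hw
    obtain ⟨c, hc⟩ := hscal g
    show r g *ᵥ w ∈ _
    rw [hc]
    exact Submodule.smul_mem _ _ hw)
  have hv0 : v0 ≠ 0 := by
    intro h3
    have h4 : v0 i0 = 0 := by rw [h3]; rfl
    have h5 : v0 i0 = 1 := Pi.single_eq_same i0 1
    rw [h5] at h4
    exact one_ne_zero h4
  have h2 : Submodule.span Λ {v0} ≠ ⊥ := by
    rw [Ne, Submodule.span_singleton_eq_bot]
    exact hv0
  have h3 := h1.resolve_left h2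
  have h4 : Module.finrank Λ (Submodule.span Λ {v0}) = 1 := finrank_span_singleton hv0
  rw [h3, finrank_top, Module.finrank_fin_fun] at h4
  exact h4

end Pool.Agent.R417.FA
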