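import Pool.Agent.R417.FA.Concl
import Pool.Agent.R417.GE.Cong

/-! Rank two. -/

set_option autoImplicit false
set_option linter.unusedVariables false
set_option linter.unusedSectionVars false
set_option linter.style.haveILetI false

namespace Pool.Agent.R417.FA

open IsLocalRing

open Pool.Agent.R417.GE (approx triNil bigNil WW_stable WW I1)

section

variable {F Ω : Type} [Field F] [Field Ω] [Algebra F Ω] [IsGalois F Ω] {l m : ℕ}
  {L : IntermediateField F Ω} {Rb B : Subring Ω} {ζ : Ω} {U : Set F}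
  {A : Type} [CommRing A] [IsDomain A] [IsLocalRing A] [IsNoetherianRing A] [TopologicalSpace A]

theorem full {ρ : Gal(Ω/F) →* GL (Fin 2) A} {a : L.fixingSubgroup → Matrix (Fin 2) (Fin 2) A}
    (hl : l.Prime) (hl2 : l ≠ 2) (hA : IsAdic (maximalIdeal A))
    (hlA : (l : A) ∈ maximalIdeal A) (hl0 : (l : A) ≠ 0)
    (hm0 : m ≠ 0) (hmax : maximalIdeal A = Ideal.span {(l : A)})
    (hcard : Nat.card (ResidueField A) = l) (hρ : Continuous ρ)
    (ha : ∀ g : L.fixingSubgroup, (ρ g : Matrix (Fin 2) (Fin 2) A) = 1 + (l : A) ^ m • a g)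
    (hdet : ∀ g : L.fixingSubgroup, (ρ g : Matrix (Fin 2) (Fin 2) A).det = 1)
    (hspan : ∀ X : Matrix (Fin 2) (Fin 2) (ResidueField A), X.trace = 0 →
      X ∈ Submodule.span (ResidueField A) (Set.range fun g => (a g).map (residue A)))
    {M X0 : Matrix (Fin 2) (Fin 2) A} (hM : M = 1 + (l : A) ^ m • X0) (hMd : M.det = 1) :
    ∃ g : L.fixingSubgroup, (ρ g : Matrix (Fin 2) (Fin 2) A) = M := by
  have hcomp : CompactSpace (L.fixingSubgroup) := isCompact_iff_compactSpace.1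
    (InfiniteGalois.fixingSubgroup_isClosed (L)).isCompact
  let C : ℕ → Set (L.fixingSubgroup) := fun i => {g | ∃ X : Matrix (Fin 2) (Fin 2) A,
    M = (ρ g : Matrix (Fin 2) (Fin 2) A) * (1 + (l : A) ^ (m + i) • X)}
  have hne : ∀ i, (C i).Nonempty := fun i => by
    obtain ⟨g, X, hgX⟩ := approx hl hl2 hlA hl0 hm0 hmax hcard ha hdet hspan hM hMd i
    exact ⟨g, X, hgX⟩
  have hanti : ∀ i, C (i + 1) ⊆ C i := by
    rintro i g ⟨X, hX⟩
    refine ⟨(l : A) • X, ?_⟩
    rw [smul_smul, ← pow_succ]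
    exact hX
  have hclosed : ∀ i, IsClosed (C i) := by
    intro i
    rw [← isOpen_compl_iff, isOpen_iff_mem_nhds]
    intro g hg
    have h1 := Pool.Agent.W569.FM.eventually_ME hA (ρ.comp (L.fixingSubgroup).subtype)
      (hρ.comp continuous_subtype_val) (m + i)
    have h2 : Filter.Tendsto (fun h : L.fixingSubgroup => g⁻¹ * h) (nhds g) (nhds 1) := by
      have h3 : Continuous (fun h : L.fixingSubgroup => g⁻¹ * h) := continuous_const.mul continuous_id
      have h4 := h3.tendsto g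
      rwa [inv_mul_cancel] at h4
    filter_upwards [h2.eventually h1] with h hh
    rintro ⟨X, hX⟩
    apply hg
    have h5 : ∀ i' j', ∃ z, ((ρ ((g⁻¹ * h : L.fixingSubgroup) : Gal(Ω/F)) : Matrix (Fin 2) (Fin 2) A) - 1) i' j' =
        z * (l : A) ^ (m + i) := by
      intro i' j'
      have h6 := hh i' j'
      rw [hmax, Ideal.span_singleton_pow, Ideal.mem_span_singleton'] at h6
      obtain ⟨z, hz⟩ := h6
      exact ⟨z, hz.symm⟩
    choose Z hZ using h5
    have h7 : (ρ ((g⁻¹ * h : L.fixingSubgroup) : Gal(Ω/F)) : Matrix (Fin 2) (Fin 2) A) =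
        1 + (l : A) ^ (m + i) • Matrix.of Z := by
      ext i' j'
      have h8 := hZ i' j'
      rw [Matrix.sub_apply] at h8
      rw [Matrix.add_apply, Matrix.smul_apply, Matrix.of_apply, smul_eq_mul]
      linear_combination h8
    have h9 : (ρ h : Matrix (Fin 2) (Fin 2) A) = (ρ g : Matrix (Fin 2) (Fin 2) A) *
        (ρ ((g⁻¹ * h : L.fixingSubgroup) : Gal(Ω/F)) : Matrix (Fin 2) (Fin 2) A) := by
      rw [← Units.val_mul, ← map_mul, ← Subgroup.coe_mul, mul_inv_cancel_left]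
    refine ⟨Matrix.of Z + X + (l : A) ^ (m + i) • (Matrix.of Z * X), ?_⟩
    rw [hX, h9, h7, mul_assoc]
    congr 1
    simp only [mul_add, add_mul, mul_one, one_mul, smul_mul_assoc, mul_smul_comm, smul_add]
    abel
  obtain ⟨g, hg⟩ := IsCompact.nonempty_iInter_of_sequence_nonempty_isCompact_isClosed C hanti hne
    (hclosed 0).isCompact hclosed
  refine ⟨g, ?_⟩
  rw [Set.mem_iInter] at hg
  rw [← sub_eq_zero]
  ext i j
  rw [Matrix.zero_apply]
  have h1 := Ideal.iInf_pow_eq_bot_of_isLocalRing (maximalIdeal A)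
    (Ideal.IsPrime.ne_top inferInstance)
  rw [← Submodule.mem_bot A, ← h1, Submodule.mem_iInf]
  intro N
  obtain ⟨X, hX⟩ := hg N
  have h2 : ((ρ g : Matrix (Fin 2) (Fin 2) A) - M) i j =
      -((l : A) ^ (m + N) * (((ρ g : Matrix (Fin 2) (Fin 2) A) * X) i j)) := by
    rw [hX, mul_add, mul_one, mul_smul_comm, sub_add_cancel_left, Matrix.neg_apply,
      Matrix.smul_apply, smul_eq_mul]
  rw [h2]
  refine Ideal.neg_mem_iff _ |>.2 (Ideal.mul_mem_right _ _ ?_)
  exact Ideal.pow_le_pow_right (by omega) (Ideal.pow_mem_pow hlA (m + N))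

theorem det_one {ρ : Gal(Ω/F) →* GL (Fin 2) A} {a : L.fixingSubgroup → Matrix (Fin 2) (Fin 2) A} {σ : Gal(Ω/F)}
    {u : ℕ} [IsSepClosed Ω] [hH : L.fixingSubgroup.Normal] (D : Dat2 L Rb B l ζ U)
    (hl : l.Prime) (hm : 2 < l ^ m) (hA : IsAdic (maximalIdeal A))
    (hlA : (l : A) ∈ maximalIdeal A) (hl0 : (l : A) ≠ 0) (hu : ¬ l ∣ u) (hρ : Continuous ρ)
    (hur : ∀ P : Ideal B, P.IsPrime → ∀ τ : L.fixingSubgroup,
      Inert B P (τ : Gal(Ω/F)) → ρ τ = 1)
    (ha : ∀ g : L.fixingSubgroup, (ρ g : Matrix (Fin 2) (Fin 2) A) = 1 + (l : A) ^ m • a g)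
    (hσ : ∀ (K : ℕ) (z : Ω), z ^ (l ^ K) = 1 → σ z = z ^ (1 + l ^ m * u)) (g : L.fixingSubgroup) :
    (ρ g : Matrix (Fin 2) (Fin 2) A).det = 1 := by
  have hm0 : m ≠ 0 := by
    rintro rfl
    rw [pow_zero] at hm
    omega
  have htop : IsTopologicalRing A := by
    have h1 : ‹TopologicalSpace A› = (maximalIdeal A).adicTopology := hA
    rw [h1]
    exact (maximalIdeal A).adic_basis.toRing_subgroups_basis.toRingFilterBasis.isTopologicalRing
  let ρ1 : Gal(Ω/F) →* GL (Fin 1) A :=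
    (Units.map ((Matrix.scalar (Fin 1) : A →+* Matrix (Fin 1) (Fin 1) A) :
      A →* Matrix (Fin 1) (Fin 1) A)).comp (Matrix.GeneralLinearGroup.det.comp ρ)
  have hρ1 : ∀ g, (ρ1 g : Matrix (Fin 1) (Fin 1) A) =
      Matrix.scalar (Fin 1) (ρ g : Matrix (Fin 2) (Fin 2) A).det := fun g => rfl
  have hc1 : Continuous fun g : Gal(Ω/F) => (ρ1 g : Matrix (Fin 1) (Fin 1) A) := by
    have h1 : Continuous fun g : Gal(Ω/F) => (ρ g : Matrix (Fin 2) (Fin 2) A).det :=
      (Units.continuous_val.comp hρ).matrix_det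
    refine continuous_matrix fun i j => ?_
    have h2 : (fun g : Gal(Ω/F) => (ρ1 g : Matrix (Fin 1) (Fin 1) A) i j) =
        fun g : Gal(Ω/F) => (ρ g : Matrix (Fin 2) (Fin 2) A).det := by
      funext g
      rw [hρ1]
      have h3 : i = j := Subsingleton.elim i j
      rw [h3]
      simp
    rw [h2]
    exact h1
  have hcont : Continuous ρ1 := by
    rw [Units.continuous_iff]
    refine ⟨hc1, ?_⟩
    have h1 : (fun g : Gal(Ω/F) => (((ρ1 g)⁻¹ : GL (Fin 1) A) : Matrix (Fin 1) (Fin 1) A)) =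
        (fun g : Gal(Ω/F) => (ρ1 g : Matrix (Fin 1) (Fin 1) A)) ∘ fun g => g⁻¹ := by
      funext g
      show _ = (ρ1 g⁻¹ : Matrix (Fin 1) (Fin 1) A)
      rw [map_inv]
    show Continuous fun g : Gal(Ω/F) => (((ρ1 g)⁻¹ : GL (Fin 1) A) : Matrix (Fin 1) (Fin 1) A)
    rw [h1]
    exact hc1.comp continuous_inv
  let a1 : L.fixingSubgroup → Matrix (Fin 1) (Fin 1) A := fun g =>
    Matrix.scalar (Fin 1) ((a g).trace + (l : A) ^ m * (a g).det)
  have ha1 : ∀ g : L.fixingSubgroup, (ρ1 g : Matrix (Fin 1) (Fin 1) A) = 1 + (l : A) ^ m • a1 g := by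
    intro g
    have h1 : (1 + (l : A) ^ m • a g).det = 1 + (l : A) ^ m * ((a g).trace +
        (l : A) ^ m * (a g).det) := by
      rw [Matrix.det_fin_two, Matrix.det_fin_two, Matrix.trace_fin_two]
      simp only [Matrix.add_apply, Matrix.smul_apply, smul_eq_mul, Matrix.one_apply_eq,
        Matrix.one_apply_ne (show (0 : Fin 2) ≠ 1 by decide),
        Matrix.one_apply_ne (show (1 : Fin 2) ≠ 0 by decide), zero_add]
      ring
    rw [hρ1, ha, h1, map_add, map_one, map_mul]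
    congr 1
    ext i j
    rw [Matrix.smul_apply]
    have h3 : i = j := Subsingleton.elim i j
    rw [h3]
    simp [a1]
  obtain ⟨hT, hrel⟩ := relGeo D hl hm hA hlA hl0 hcont (fun P hP τ hτ => by
    apply Units.ext
    rw [hρ1, hur P hP τ hτ, Units.val_one, Matrix.det_one, map_one]
    rfl) ha1 hσ
  have hnil : ∃ K : ℕ, Submodule.span A (Set.range a1) ^ K ≤
      maximalIdeal A • (⊤ : Submodule A (Matrix (Fin 1) (Fin 1) A)) := by
    refine triNil (ρ1 σ).isUnit hl hl.one_lt hlA hl0 hm0 hu hT hrel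
      ((residue A).mapMatrix) (residue A) ?_ (fun r => residue_eq_zero_iff r) ?_ ?_ ?_
    · intro r X
      ext i j
      rw [RingHom.mapMatrix_apply, Matrix.map_apply, Matrix.smul_apply, smul_eq_mul, map_mul]
      rfl
    · intro X
      exact (AddMonoidHom.map_trace (residue A : A →+* ResidueField A) X).symm
    · intro X hX i j
      rw [← residue_eq_zero_iff]
      exact congrFun (congrFun hX i) j
    · intro g i j hij
      exact absurd hij (by rw [Subsingleton.elim i j]; exact lt_irrefl _)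
  obtain ⟨w1, w2, w3⟩ := WW_stable (a := a1) (l := l) (m := m)
  have h1 := bigNil (ρ1 σ).isUnit hl hl.one_lt hlA hl0 hm0 hu hT
    (fun g => hrel (WW a1 l) w1 w2 w3 g) hnil
  rw [pow_one, I1, Submodule.span_eq_bot] at h1
  have h2 := h1 (a1 g) ⟨g, rfl⟩
  have h3 := ha1 g
  rw [h2, smul_zero, add_zero, hρ1] at h3
  have h4 := congrFun (congrFun h3 0) 0
  simpa using h4

end

end Pool.Agent.R417.FA
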