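import Pool.Agent.R417.FA.Kump

/-! Frobenius elements in the Galois group of a function field. -/

set_option autoImplicit false
set_option linter.unusedVariables false
set_option linter.unusedSectionVars false
set_option linter.style.haveILetI false

namespace Pool.Agent.R417.FA

section

variable {k F Ω : Type} [Field k] [Finite k] [Field F] [Field Ω] [Algebra k F] [Algebra F Ω]
  [Algebra k Ω] [IsScalarTower k F Ω] [IsGalois F Ω]

theorem frob_fin (hcl : ∀ x : F, IsAlgebraic k x → ∃ c : k, algebraMap k F c = x)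
    (E : IntermediateField k Ω) [FiniteDimensional k E] :
    ∃ σ : Gal(Ω/F), ∀ x ∈ E, σ x = x ^ Nat.card k := by
  classical
  letI : Fintype k := Fintype.ofFinite k
  haveI : Finite E := Module.finite_of_finite k
  haveI : IsGalois k E := inferInstance
  let r : Gal(Ω/F) →* Gal(E/k) := (AlgEquiv.restrictNormalHom E).comp
    (MonoidHom.mk' (fun σ : Gal(Ω/F) => (σ.restrictScalars k : Ω ≃ₐ[k] Ω)) (fun a b => rfl))
  have hr : ∀ (σ : Gal(Ω/F)) (x : E), ((r σ x : E) : Ω) = σ (x : Ω) := by
    intro σ x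
    exact AlgEquiv.restrictNormal_commutes (σ.restrictScalars k : Ω ≃ₐ[k] Ω) E x
  have hΓ : IntermediateField.fixedField r.range = (⊥ : IntermediateField k E) := by
    rw [eq_bot_iff]
    intro x hx
    rw [IntermediateField.mem_fixedField_iff] at hx
    have h1 : ∀ σ : Gal(Ω/F), σ (x : Ω) = x := by
      intro σ
      rw [← hr, hx (r σ) ⟨σ, rfl⟩]
    obtain ⟨y, hy⟩ := (InfiniteGalois.mem_range_algebraMap_iff_fixed (k := F) (x : Ω)).2 h1
    have h2 : IsAlgebraic k y := by
      have h3 : IsAlgebraic k (x : Ω) := by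
        have h4 : IsAlgebraic k x := Algebra.IsAlgebraic.isAlgebraic x
        exact h4.algebraMap
      rw [← hy] at h3
      exact (isAlgebraic_algebraMap_iff (algebraMap F Ω).injective).1 h3
    obtain ⟨c, hc⟩ := hcl y h2
    rw [IntermediateField.mem_bot]
    refine ⟨c, Subtype.ext ?_⟩
    show algebraMap k Ω c = x
    rw [← hy, ← hc, ← IsScalarTower.algebraMap_apply]
  have htop : r.range = ⊤ := by
    rw [← IntermediateField.fixingSubgroup_fixedField r.range, hΓ]
    exact IntermediateField.fixingSubgroup_bot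
  have hmem : FiniteField.frobeniusAlgEquivOfAlgebraic k E ∈ r.range := by
    rw [htop]
    trivial
  obtain ⟨σ, hσ⟩ := hmem
  refine ⟨σ, fun x hx => ?_⟩
  have h1 := hr σ ⟨x, hx⟩
  rw [hσ] at h1
  rw [← h1, Nat.card_eq_fintype_card]
  rfl

/-- a Frobenius element -/
theorem frob_exists (hcl : ∀ x : F, IsAlgebraic k x → ∃ c : k, algebraMap k F c = x) :
    ∃ σ : Gal(Ω/F), ∀ x : Ω, IsAlgebraic k x → σ x = x ^ Nat.card k := by
  classical
  let C : {x : Ω // IsAlgebraic k x} → Set Gal(Ω/F) := fun x =>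
    {σ | σ (x : Ω) = (x : Ω) ^ Nat.card k}
  have hclosed : ∀ x, IsClosed (C x) := by
    intro x
    have hopen : ∀ y : Ω, IsOpen {σ : Gal(Ω/F) | σ (x : Ω) = y} := by
      intro y
      by_cases h : ∃ σ0 : Gal(Ω/F), σ0 (x : Ω) = y
      · obtain ⟨σ0, rfl⟩ := h
        have h1 : IsOpen (MulAction.stabilizer Gal(Ω/F) (x : Ω) : Set Gal(Ω/F)) :=
          stabilizer_isOpen_of_isIntegral (x : Ω)
        have h2 : {σ : Gal(Ω/F) | σ (x : Ω) = σ0 (x : Ω)} = (fun τ => σ0⁻¹ * τ) ⁻¹'
            (MulAction.stabilizer Gal(Ω/F) (x : Ω) : Set Gal(Ω/F)) := by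
          ext τ
          simp only [Set.mem_setOf_eq, Set.mem_preimage, SetLike.mem_coe,
            MulAction.mem_stabilizer_iff]
          constructor
          · intro h3
            show σ0⁻¹ (τ (x : Ω)) = x
            rw [h3]
            exact σ0.symm_apply_apply _
          · intro h3
            have h4 : σ0⁻¹ (τ (x : Ω)) = x := h3
            rw [← h4]
            have h5 : σ0 (σ0⁻¹ (τ (x : Ω))) = τ (x : Ω) := σ0.apply_symm_apply _
            rw [h5, h4]
        rw [h2]
        exact h1.preimage (continuous_const_mul σ0⁻¹)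
      · have h1 : {σ : Gal(Ω/F) | σ (x : Ω) = y} = ∅ := by
          ext τ
          simp only [Set.mem_setOf_eq, Set.mem_empty_iff_false, iff_false]
          exact fun h2 => h ⟨τ, h2⟩
        rw [h1]
        exact isOpen_empty
    rw [← isOpen_compl_iff]
    have h1 : (C x)ᶜ = ⋃ y ∈ {y : Ω | y ≠ (x : Ω) ^ Nat.card k},
        {σ : Gal(Ω/F) | σ (x : Ω) = y} := by
      ext τ
      simp only [Set.mem_compl_iff, Set.mem_iUnion, Set.mem_setOf_eq, exists_prop, C]
      constructor
      · intro h2
        exact ⟨_, h2, rfl⟩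
      · rintro ⟨y, hy, rfl⟩
        exact hy
    rw [h1]
    exact isOpen_biUnion fun y _ => hopen y
  have hne : (⋂ x, C x).Nonempty := by
    refine CompactSpace.iInter_nonempty hclosed fun s => ?_
    let E : IntermediateField k Ω := IntermediateField.adjoin k
      ((fun x : {x : Ω // IsAlgebraic k x} => (x : Ω)) '' (s : Set _))
    haveI : Finite ((fun x : {x : Ω // IsAlgebraic k x} => (x : Ω)) '' (s : Set _)) :=
      (s.finite_toSet.image _).to_subtype
    haveI : FiniteDimensional k E := by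
      refine IntermediateField.finiteDimensional_adjoin ?_
      rintro _ ⟨x, _, rfl⟩
      exact x.2.isIntegral
    obtain ⟨σ, hσ⟩ := frob_fin (Ω := Ω) hcl E
    refine ⟨σ, ?_⟩
    simp only [Set.mem_iInter]
    intro x hx
    exact hσ _ (IntermediateField.subset_adjoin _ _ ⟨x, hx, rfl⟩)
  obtain ⟨σ, hσ⟩ := hne
  refine ⟨σ, fun x hx => ?_⟩
  exact Set.mem_iInter.1 hσ ⟨x, hx⟩

end

end Pool.Agent.R417.FA
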