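import Pool.Agent.R417.FA.Cong

/-! Powers of Frobenius elements. -/

set_option autoImplicit false

namespace Pool.Agent.R417.FA

theorem frob_pow {k R : Type} [Field k] [CommRing R] [IsDomain R] [Algebra k R] {σ : GG R}
    (hσ : ∀ x : Om R, IsAlgebraic k x → σ x = x ^ Nat.card k) (d : ℕ) (x : Om R)
    (hx : IsAlgebraic k x) : (σ ^ d) x = x ^ (Nat.card k ^ d) := by
  induction d with
  | zero =>
    rw [pow_zero, pow_zero, pow_one]
    rfl
  | succ d ih =>
    have h1 : (σ ^ (d + 1)) x = (σ ^ d) (σ x) := by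
      rw [pow_succ]
      rfl
    rw [h1, hσ x hx, map_pow, ih, ← pow_mul, ← pow_succ]

theorem frob_root {k R : Type} [Field k] [Finite k] [CommRing R] [IsDomain R] [Algebra k R]
    {l : ℕ} (hl : l.Prime) (hcl : ∀ x : FractionRing R, IsAlgebraic k x →
      ∃ c : k, algebraMap k (FractionRing R) c = x) (d : ℕ) :
    ∃ σ : GG R, ∀ (K : ℕ) (z : Om R), z ^ (l ^ K) = 1 → σ z = z ^ (Nat.card k ^ d) := by
  obtain ⟨σ, hσ⟩ := frob_exists (k := k) (F := FractionRing R) (Ω := Om R) hcl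
  exact ⟨σ ^ d, fun K z hz => frob_pow hσ d z (root_alg (pow_ne_zero _ hl.ne_zero) hz)⟩

end Pool.Agent.R417.FA
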