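import Pool.Agent.R417.FA.Ram
import Pool.Agent.R417.GE.Kump

/-! Characters of `l`-power order of the geometric fundamental group. -/

set_option autoImplicit false
set_option linter.unusedVariables false
set_option linter.unusedSectionVars false
set_option linter.style.haveILetI false

namespace Pool.Agent.R417.FA

section

variable {F Ω : Type} [Field F] [Field Ω] [Algebra F Ω] [IsGalois F Ω] {l : ℕ}

/-- the data, with the group `U` of units -/
structure Dat2 (L : IntermediateField F Ω) (Rb B : Subring Ω) (l : ℕ) (ζ : Ω) (U : Set F) :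
    Prop where
  dat : Dat L Rb B l ζ
  units : ∀ r : Rb, IsUnit r → ∃ d ∈ L, d ≠ 0 ∧ ∃ x ∈ U, (r : Ω) = d ^ l * algebraMap F Ω x
  inB : ∀ x ∈ U, x ≠ 0 ∧ algebraMap F Ω x ∈ B ∧ (algebraMap F Ω x)⁻¹ ∈ B
  roots : ∀ (K : ℕ) (z : Ω), z ^ (l ^ K) = 1 → z ∈ L
  powB : ∀ (x : Ω) (n : ℕ), n ≠ 0 → x ^ n ∈ B → x ∈ B

variable {L : IntermediateField F Ω} {Rb B : Subring Ω} {ζ : Ω} {U : Set F}

/-- `τ` lies in the inertia group at `P` -/
def Inert (B : Subring Ω) (P : Ideal B) (τ : Gal(Ω/F)) : Prop :=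
  ∀ b : B, ∃ z ∈ P, (z : Ω) = τ b - b

theorem fixL (h : L.fixingSubgroup) {x : Ω} (hx : x ∈ L) : (h : Gal(Ω/F)) x = x :=
  (IntermediateField.mem_fixingSubgroup_iff L _).1 h.2 x hx

theorem key0 (D : Dat2 L Rb B l ζ U) (hl : l.Prime)
    (f : L.fixingSubgroup →* Multiplicative (ZMod l))
    (hf : IsOpen (f.ker : Set L.fixingSubgroup))
    (hin : ∀ P : Ideal B, P.IsPrime → ∀ τ : L.fixingSubgroup,
      Inert B P (τ : Gal(Ω/F)) → f τ = 1) :
    ∃ v : Ω, v ≠ 0 ∧ (∃ x ∈ U, v ^ l = algebraMap F Ω x) ∧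
      ∀ h : L.fixingSubgroup, (h : Gal(Ω/F)) v = ζ ^ (Multiplicative.toAdd (f h)).val * v := by
  classical
  have hufd := D.dat.ufd
  -- reduction to units of `Rb`
  have key : ∀ (A : Rb), A ≠ 0 → ∀ u : Ω, u ^ l = (A : Ω) →
      (∀ h : L.fixingSubgroup, (h : Gal(Ω/F)) u = ζ ^ (Multiplicative.toAdd (f h)).val * u) →
      ∃ v : Ω, v ≠ 0 ∧ (∃ r : Rb, IsUnit r ∧ v ^ l = (r : Ω)) ∧
        ∀ h : L.fixingSubgroup, (h : Gal(Ω/F)) v =
          ζ ^ (Multiplicative.toAdd (f h)).val * v := by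
    intro A
    induction A using WellFounded.induction (wellFounded_dvdNotUnit (α := Rb)) with
    | _ A ih =>
      intro hA0 u hu huf
      have hu0 : u ≠ 0 := by
        rintro rfl
        rw [zero_pow hl.ne_zero] at hu
        exact hA0 (Subtype.ext hu.symm)
      by_cases hAu : IsUnit A
      · exact ⟨u, hu0, ⟨A, hAu, hu⟩, huf⟩
      · obtain ⟨π, hπ, hπA⟩ := WfDvdMonoid.exists_irreducible_factor hAu hA0
        have hπp : Prime π := hπ.prime
        obtain ⟨n, a, ha, hAa⟩ := WfDvdMonoid.max_power_factor hA0 hπ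
        have hn0 : n ≠ 0 := by
          rintro rfl
          rw [pow_zero, one_mul] at hAa
          exact ha (hAa ▸ hπA)
        by_cases hln : l ∣ n
        · obtain ⟨m, rfl⟩ := hln
          have hπ0 : (π : Ω) ≠ 0 := fun h0 => hπp.ne_zero (Subtype.ext h0)
          refine ih a ⟨?_, π ^ (l * m), ?_, ?_⟩ ?_ (u * ((π : Ω) ^ m)⁻¹) ?_ fun h => ?_
          · rintro rfl
            exact ha (dvd_zero _)
          · exact fun h => hπ.not_isUnit (isUnit_pow_iff hn0 |>.1 h)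
          · rw [hAa, mul_comm]
          · rintro rfl
            exact ha (dvd_zero _)
          · have h1 : (A : Ω) = (π : Ω) ^ (l * m) * (a : Ω) :=
              congrArg (fun z : Rb => (z : Ω)) hAa
            rw [mul_pow, hu, h1, inv_pow, ← pow_mul, mul_comm m l]
            field_simp
          · rw [map_mul, huf, map_inv₀, map_pow, fixL h (D.dat.le _ π.2), mul_assoc]
        · have h1 : ∀ h, f h = 1 := ram D.dat hl hπp hln ha (by
            rw [hu]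
            exact congrArg (fun z : Rb => (z : Ω)) hAa) hu0 f hf huf hin
          refine ⟨1, one_ne_zero, ⟨1, isUnit_one, by rw [one_pow]; rfl⟩, fun h => ?_⟩
          rw [h1 h, toAdd_one, ZMod.val_zero, pow_zero, one_mul, map_one]
  obtain ⟨u, hu0, huL, huf⟩ := kuma hl L D.dat.root (D.dat.le _ D.dat.mem) f hf
  obtain ⟨a, b, hb, hab⟩ := D.dat.frac _ huL
  have hb0 : (b : Ω) ≠ 0 := fun h0 => hb (Subtype.ext h0)
  obtain ⟨l', hl'⟩ : ∃ l', l = l' + 1 := ⟨l - 1, by have := hl.pos; omega⟩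
  have ha0 : a ≠ 0 := by
    rintro rfl
    have h1 : u ^ l * (b : Ω) = 0 := hab
    rcases mul_eq_zero.1 h1 with h2 | h2
    · exact pow_ne_zero _ hu0 h2
    · exact hb0 h2
  obtain ⟨v, hv0, ⟨r, hr, hvr⟩, hv⟩ := key (a * b ^ l') (mul_ne_zero ha0 (pow_ne_zero _ hb))
    (u * (b : Ω)) (by
      show (u * (b : Ω)) ^ l = (a : Ω) * (b : Ω) ^ l'
      rw [mul_pow, ← hab]
      nth_rewrite 2 [hl']
      rw [pow_succ']
      ring) (fun h => by
      rw [map_mul, huf, fixL h (D.dat.le _ b.2), mul_assoc])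
  obtain ⟨d, hdL, hd0, x, hx, hrx⟩ := D.units r hr
  refine ⟨v * d⁻¹, mul_ne_zero hv0 (inv_ne_zero hd0), ⟨x, hx, ?_⟩, fun h => ?_⟩
  · rw [mul_pow, hvr, hrx, inv_pow]
    have := pow_ne_zero l hd0
    field_simp
  · rw [map_mul, hv, map_inv₀, fixL h hdL, mul_assoc]

theorem key1 (D : Dat2 L Rb B l ζ U) (hl : l.Prime)
    (f : L.fixingSubgroup →* Ωˣ) (hfl : ∀ h, f h ^ l = 1)
    (hf : IsOpen (f.ker : Set L.fixingSubgroup))
    (hin : ∀ P : Ideal B, P.IsPrime → ∀ τ : L.fixingSubgroup,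
      Inert B P (τ : Gal(Ω/F)) → f τ = 1) :
    ∃ v : Ω, v ≠ 0 ∧ (∃ x ∈ U, v ^ l = algebraMap F Ω x) ∧
      ∀ h : L.fixingSubgroup, (h : Gal(Ω/F)) v = (f h : Ω) * v := by
  haveI : NeZero l := ⟨hl.ne_zero⟩
  have hζ := D.dat.root
  obtain ⟨f1, hf1⟩ := Pool.Agent.R417.GE.toZ hl hζ f hfl
  have h1 : ∀ h, f1 h = 1 ↔ f h = 1 := by
    intro h
    rw [← Units.val_inj, hf1, Units.val_one, hζ.pow_eq_one_iff_dvd]
    constructor
    · intro h2
      rw [h2]
      simp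
    · intro h2
      have h4 : (Multiplicative.toAdd (f1 h)).val = 0 :=
        Nat.eq_zero_of_dvd_of_lt h2 (ZMod.val_lt _)
      have h5 : Multiplicative.toAdd (f1 h) = 0 := (ZMod.val_eq_zero _).1 h4
      exact Multiplicative.toAdd.injective h5
  obtain ⟨v, hv0, hvU, hv⟩ := key0 D hl f1 (by
    have h2 : f1.ker = f.ker := by
      ext h
      exact h1 h
    rw [h2]
    exact hf) (fun P hP τ hτ => (h1 τ).2 (hin P hP τ hτ))
  exact ⟨v, hv0, hvU, fun h => by rw [hv, hf1]⟩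

theorem inertia_root (D : Dat2 L Rb B l ζ U) {P : Ideal B} (hP : P.IsPrime) {g : Gal(Ω/F)}
    (hg : Inert B P g) {V ω : Ω} {K : ℕ} (hω : ω ^ (l ^ K) = 1) (hV0 : V ≠ 0) {x : F}
    (hx : x ∈ U) (hVN : V ^ (l ^ K) = algebraMap F Ω x) (hgV : g V = ω * V) (hl : l ≠ 0) :
    ω = 1 := by
  by_contra hne
  have hN : l ^ K ≠ 0 := pow_ne_zero _ hl
  have hV : V ∈ B := D.powB _ _ hN (by rw [hVN]; exact (D.inB x hx).2.1)
  have hV' : V⁻¹ ∈ B := D.powB _ _ hN (by rw [inv_pow, hVN]; exact (D.inB x hx).2.2)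
  have hωi : ω ∈ B := D.powB _ _ hN (by rw [hω]; exact B.one_mem)
  have hNi : ((l ^ K : ℕ) : Ω)⁻¹ ∈ B := by
    rw [Nat.cast_pow, ← inv_pow]
    exact B.pow_mem (D.dat.leB D.dat.inv) _
  let V1 : B := ⟨V, hV⟩
  let V2 : B := ⟨V⁻¹, hV'⟩
  let w : B := ⟨ω, hωi⟩
  let N1 : B := ⟨_, hNi⟩
  obtain ⟨z, hzP, hz⟩ := hg V1
  have h1 : w - 1 ∈ P := by
    have h2 : w - 1 = z * V2 := by
      apply Subtype.ext
      show ω - 1 = (z : Ω) * V⁻¹
      rw [hz]
      show ω - 1 = (g V - V) * V⁻¹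
      rw [hgV]
      field_simp
    rw [h2]
    exact P.mul_mem_right _ hzP
  have h3 : ∑ i ∈ Finset.range (l ^ K), w ^ i = 0 := by
    have h4 : (∑ i ∈ Finset.range (l ^ K), w ^ i) * (w - 1) = w ^ (l ^ K) - 1 := geom_sum_mul w _
    have h5 : w ^ (l ^ K) = 1 := Subtype.ext (by
      show ω ^ (l ^ K) = 1
      exact hω)
    rw [h5, sub_self, mul_eq_zero] at h4
    rcases h4 with h4 | h4
    · exact h4
    · exfalso
      apply hne
      have h6 := congrArg (fun z : B => (z : Ω)) h4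
      have h7 : ω - 1 = 0 := h6
      exact sub_eq_zero.1 h7
  have h8 : ((l ^ K : ℕ) : B) ∈ P := by
    have h9 : ((l ^ K : ℕ) : B) = -(∑ i ∈ Finset.range (l ^ K), (w ^ i - 1)) := by
      rw [Finset.sum_sub_distrib, h3]
      simp
    rw [h9]
    refine P.neg_mem (P.sum_mem fun i _ => ?_)
    have h10 : w - 1 ∣ w ^ i - 1 := by
      have h11 := sub_dvd_pow_sub_pow w 1 i
      rwa [one_pow] at h11
    exact P.mem_of_dvd h10 h1
  apply hP.ne_top
  rw [Ideal.eq_top_iff_one]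
  have h12 : (1 : B) = N1 * ((l ^ K : ℕ) : B) := by
    apply Subtype.ext
    show (1 : Ω) = ((l ^ K : ℕ) : Ω)⁻¹ * (((((l ^ K : ℕ) : B)) : Ω))
    have h13 : ((((l ^ K : ℕ) : B)) : Ω) = ((l ^ K : ℕ) : Ω) := by
      exact map_natCast B.subtype _
    have h14 : ((l ^ K : ℕ) : Ω) ≠ 0 := by
      rw [Nat.cast_pow]
      exact pow_ne_zero _ D.dat.ne
    rw [h13, inv_mul_cancel₀ h14]
  rw [h12]
  exact P.mul_mem_left _ h8

theorem isOpen_stab (L : IntermediateField F Ω) (V : Ω) :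
    IsOpen {h : L.fixingSubgroup | (h : Gal(Ω/F)) V = V} := by
  have h1 : IsOpen (MulAction.stabilizer Gal(Ω/F) V : Set Gal(Ω/F)) :=
    stabilizer_isOpen_of_isIntegral V
  exact h1.preimage continuous_subtype_val

/-- the action of the Galois group on the characters of `l`-power order -/
theorem kump [IsSepClosed Ω] (D : Dat2 L Rb B l ζ U) (hl : l.Prime) (σ : Gal(Ω/F)) (c : ℕ) :
    ∀ (K : ℕ), (∀ z : Ω, z ^ (l ^ K) = 1 → σ z = z ^ c) →
    ∀ (f : L.fixingSubgroup →* Ωˣ), (∀ h, f h ^ (l ^ K) = 1) →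
    IsOpen (f.ker : Set L.fixingSubgroup) →
    (∀ P : Ideal B, P.IsPrime → ∀ τ : L.fixingSubgroup, Inert B P (τ : Gal(Ω/F)) → f τ = 1) →
    ∀ (h : L.fixingSubgroup) (hh : σ * h * σ⁻¹ ∈ L.fixingSubgroup),
      f ⟨σ * h * σ⁻¹, hh⟩ = f h ^ c := by
  intro K
  induction K with
  | zero =>
    intro _ f hf _ _ h hh
    have h1 : ∀ h, f h = 1 := by simpa using hf
    rw [h1, h1, one_pow]
  | succ K ih =>
    intro hσ f hfK hfo hin h hh
    obtain ⟨v, hv0, ⟨x, hxU, hvx⟩, hv⟩ := key1 D hl ((powMonoidHom (l ^ K)).comp f) (fun h => by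
      show (f h ^ (l ^ K)) ^ l = 1
      rw [← pow_mul, ← pow_succ]
      exact hfK h) (by
      refine Subgroup.isOpen_mono (H₁ := f.ker) ?_ hfo
      intro h hh
      show f h ^ (l ^ K) = 1
      rw [show f h = 1 from hh, one_pow]) (fun P hP τ hτ => by
      show f τ ^ (l ^ K) = 1
      rw [hin P hP τ hτ, one_pow])
    have hlK : 0 < l ^ K := Nat.pow_pos hl.pos
    have hlK1 : 0 < l ^ (K + 1) := Nat.pow_pos hl.pos
    have hne : NeZero ((l ^ K : ℕ) : Ω) := ⟨by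
      rw [Nat.cast_pow]
      exact pow_ne_zero _ D.dat.ne⟩
    obtain ⟨V, hV⟩ := IsSepClosed.exists_pow_nat_eq v (l ^ K)
    have hV0 : V ≠ 0 := by
      rintro rfl
      rw [zero_pow hlK.ne'] at hV
      exact hv0 hV.symm
    have hx : V ^ (l ^ (K + 1)) = algebraMap F Ω x := by
      rw [pow_succ, pow_mul, hV]
      exact hvx
    have hfix : ∀ g : Gal(Ω/F), g (V ^ (l ^ (K + 1))) = V ^ (l ^ (K + 1)) := by
      intro g
      rw [hx]
      exact g.commutes x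
    have hrt : ∀ g : Gal(Ω/F), (g V * V⁻¹) ^ (l ^ (K + 1)) = 1 := by
      intro g
      rw [mul_pow, ← map_pow, hfix, inv_pow, mul_inv_cancel₀ (pow_ne_zero _ hV0)]
    have hrtfix : ∀ (z : Ω), z ^ (l ^ (K + 1)) = 1 → ∀ h : L.fixingSubgroup,
        (h : Gal(Ω/F)) z = z := fun z hz h => fixL h (D.roots _ z hz)
    let g0' : L.fixingSubgroup →* Ω :=
      { toFun := fun h => (h : Gal(Ω/F)) V * V⁻¹
        map_one' := by
          show (1 : Gal(Ω/F)) V * V⁻¹ = 1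
          rw [AlgEquiv.one_apply, mul_inv_cancel₀ hV0]
        map_mul' := fun a b => by
          show ((a : Gal(Ω/F)) * (b : Gal(Ω/F))) V * V⁻¹ = _
          rw [AlgEquiv.mul_apply]
          have h1 : (b : Gal(Ω/F)) V = ((b : Gal(Ω/F)) V * V⁻¹) * V := by
            rw [mul_assoc, inv_mul_cancel₀ hV0, mul_one]
          rw [h1, map_mul, hrtfix _ (hrt b) a, ← h1]
          ring }
    let g0 : L.fixingSubgroup →* Ωˣ := g0'.toHomUnits
    have hg0 : ∀ h, ((g0 h : Ωˣ) : Ω) = (h : Gal(Ω/F)) V * V⁻¹ := fun h => rfl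
    have hg0V : ∀ h : L.fixingSubgroup, (h : Gal(Ω/F)) V = (g0 h : Ω) * V := by
      intro h
      rw [hg0, mul_assoc, inv_mul_cancel₀ hV0, mul_one]
    have h3 : g0 ⟨σ * h * σ⁻¹, hh⟩ = g0 h ^ c := by
      rw [← Units.val_inj, Units.val_pow_eq_pow_val, hg0]
      show (σ ((h : Gal(Ω/F)) (σ⁻¹ V))) * V⁻¹ = _
      have h4 : σ⁻¹ V = (σ⁻¹ V * V⁻¹) * V := by
        rw [mul_assoc, inv_mul_cancel₀ hV0, mul_one]
      have h5 : (h : Gal(Ω/F)) (σ⁻¹ V) = (g0 h : Ω) * σ⁻¹ V := by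
        rw [h4, map_mul, hrtfix _ (hrt σ⁻¹) h, hg0V, ← h4]
        nth_rewrite 2 [h4]
        ring
      rw [h5, map_mul, hσ _ (by rw [hg0]; exact hrt h)]
      have h6 : σ (σ⁻¹ V) = V := by
        show (σ * σ⁻¹) V = V
        rw [mul_inv_cancel]
        rfl
      rw [h6, mul_assoc, mul_inv_cancel₀ hV0, mul_one]
    have h7 : (f / g0) ⟨σ * h * σ⁻¹, hh⟩ = (f / g0) h ^ c := by
      refine ih (fun z hz => hσ z (by rw [pow_succ, pow_mul, hz, one_pow])) (f / g0) ?_ ?_ ?_ h hh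
      · intro h
        have h20 : (g0 h : Ω) ^ (l ^ K) = (f h : Ω) ^ (l ^ K) := by
          rw [hg0, mul_pow, inv_pow, ← map_pow (h : Gal(Ω/F)), hV, hv h, mul_assoc,
            mul_inv_cancel₀ hv0, mul_one]
          rfl
        rw [MonoidHom.div_apply, div_pow, div_eq_one, ← Units.val_inj,
          Units.val_pow_eq_pow_val, Units.val_pow_eq_pow_val, h20]
      · have h8 : IsOpen ((g0.ker : Subgroup L.fixingSubgroup) : Set L.fixingSubgroup) := by
          have h9 : ((g0.ker : Subgroup L.fixingSubgroup) : Set L.fixingSubgroup) =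
              {h : L.fixingSubgroup | (h : Gal(Ω/F)) V = V} := by
            ext h
            show g0 h = 1 ↔ (h : Gal(Ω/F)) V = V
            rw [← Units.val_inj, hg0, Units.val_one, mul_inv_eq_one₀ hV0]
          rw [h9]
          exact isOpen_stab L V
        refine Subgroup.isOpen_mono (H₁ := f.ker ⊓ g0.ker) ?_ (hfo.inter h8)
        rintro h ⟨h10, h11⟩
        show (f / g0) h = 1
        rw [MonoidHom.div_apply, show f h = 1 from h10, show g0 h = 1 from h11, div_one]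
      · intro P hP τ hτ
        have h12 : g0 τ = 1 := by
          rw [← Units.val_inj, Units.val_one]
          exact inertia_root D hP hτ (hrt τ) hV0 hxU hx (hg0V τ) hl.ne_zero
        rw [MonoidHom.div_apply, hin P hP τ hτ, h12, div_one]
    rw [MonoidHom.div_apply, MonoidHom.div_apply, h3, div_pow] at h7
    exact div_left_injective h7

/-- the characters of order `l` -/
theorem kum1 (D : Dat2 L Rb B l ζ U) (hl : l.Prime) (σ : Gal(Ω/F)) (c : ℕ)
    (hσ : ∀ z : Ω, z ^ l = 1 → σ z = z ^ c)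
    (f : L.fixingSubgroup →* Multiplicative (ZMod l))
    (hf : IsOpen (f.ker : Set L.fixingSubgroup))
    (hin : ∀ P : Ideal B, P.IsPrime → ∀ τ : L.fixingSubgroup,
      Inert B P (τ : Gal(Ω/F)) → f τ = 1) (h : L.fixingSubgroup)
    (hh : σ * h * σ⁻¹ ∈ L.fixingSubgroup) : f ⟨σ * h * σ⁻¹, hh⟩ = f h ^ c := by
  haveI : NeZero l := ⟨hl.ne_zero⟩
  obtain ⟨v, hv0, ⟨x, hxU, hvx⟩, hv⟩ := key0 D hl f hf hin
  have hfix : ∀ g : Gal(Ω/F), g (v ^ l) = v ^ l := by
    intro g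
    rw [hvx]
    exact g.commutes x
  have hrt : ∀ g : Gal(Ω/F), (g v * v⁻¹) ^ l = 1 := by
    intro g
    rw [mul_pow, ← map_pow, hfix, inv_pow, mul_inv_cancel₀ (pow_ne_zero _ hv0)]
  have hrtfix : ∀ (z : Ω), z ^ l = 1 → ∀ h : L.fixingSubgroup,
      (h : Gal(Ω/F)) z = z := fun z hz h => fixL h (D.roots 1 z (by rw [pow_one]; exact hz))
  have h1 := hv ⟨σ * h * σ⁻¹, hh⟩
  have h2 : (σ ((h : Gal(Ω/F)) (σ⁻¹ v))) =
      ζ ^ (Multiplicative.toAdd (f ⟨σ * h * σ⁻¹, hh⟩)).val * v := h1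
  have h4 : σ⁻¹ v = (σ⁻¹ v * v⁻¹) * v := by
    rw [mul_assoc, inv_mul_cancel₀ hv0, mul_one]
  have h5 : (h : Gal(Ω/F)) (σ⁻¹ v) = ζ ^ (Multiplicative.toAdd (f h)).val * σ⁻¹ v := by
    rw [h4, map_mul, hrtfix _ (hrt σ⁻¹) h, hv, ← h4]
    nth_rewrite 2 [h4]
    ring
  have h6 : σ (σ⁻¹ v) = v := by
    show (σ * σ⁻¹) v = v
    rw [mul_inv_cancel]
    rfl
  rw [h5, map_mul, hσ _ (by rw [← pow_mul, mul_comm, pow_mul, D.dat.root.pow_eq_one, one_pow]),
    h6] at h2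
  have h7 := mul_right_cancel₀ hv0 h2
  rw [← pow_mul] at h7
  have h8 := (IsOfFinOrder.pow_eq_pow_iff_modEq
    (isOfFinOrder_iff_pow_eq_one.2 ⟨l, hl.pos, D.dat.root.pow_eq_one⟩)).1 h7
  rw [← D.dat.root.eq_orderOf, ← ZMod.natCast_eq_natCast_iff, Nat.cast_mul,
    ZMod.natCast_zmod_val, ZMod.natCast_zmod_val] at h8
  apply Multiplicative.toAdd.injective
  rw [toAdd_pow, nsmul_eq_mul, ← h8, mul_comm]

end

end Pool.Agent.R417.FA
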