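import Mathlib

/-! Lifting of inertia elements in infinite Galois extensions. -/

set_option autoImplicit false
set_option linter.unusedVariables false
set_option linter.style.haveILetI false

namespace Pool.Agent.R417.FA

open scoped Pointwise

/-- transitivity on the primes above a prime of the ring of invariants -/
theorem exists_smul_eq {B G : Type} [CommRing B] [Group G] [MulSemiringAction G B]
    [TopologicalSpace G] [CompactSpace G] [TotallyDisconnectedSpace G] [IsTopologicalGroup G]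
    (hst : ∀ z : B, IsOpen (MulAction.stabilizer G z : Set G))
    (P Q : Ideal B) [P.IsPrime] [Q.IsPrime]
    (h : ∀ z : B, (∀ g : G, g • z = z) → (z ∈ P ↔ z ∈ Q)) : ∃ g : G, Q = g • P := by
  let A : Subring B := FixedPoints.subring B G
  have hc : SMulCommClass G A B := ⟨fun g a b => by
    show g • ((a : B) * b) = (a : B) * g • b
    rw [smul_mul', a.2 g]⟩
  have hi : Algebra.IsInvariant A B G := ⟨fun b hb => ⟨⟨b, hb⟩, rfl⟩⟩
  let _ : TopologicalSpace B := ⊥
  have hd : DiscreteTopology B := ⟨rfl⟩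
  have hcs : ContinuousSMul G B := by
    rw [continuousSMul_iff_stabilizer_isOpen]
    exact hst
  refine Algebra.IsInvariant.exists_smul_of_under_eq_of_profinite (A := A) (G := G) P Q ?_
  ext z
  exact h z z.2

variable {F Ω : Type} [Field F] [Field Ω] [Algebra F Ω]

/-- the action of a group of automorphisms on an invariant ring -/
@[reducible] def act (B : Subring Ω) (hB : ∀ (σ : Gal(Ω/F)) (x : Ω), x ∈ B → σ x ∈ B)
    (N : Subgroup Gal(Ω/F)) : MulSemiringAction N B where
  smul g x := ⟨g.1 x.1, hB g.1 x.1 x.2⟩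
  one_smul x := rfl
  mul_smul g h x := rfl
  smul_zero g := Subtype.ext (map_zero g.1)
  smul_add g x z := Subtype.ext (map_add g.1 _ _)
  smul_one g := Subtype.ext (map_one g.1)
  smul_mul g x z := Subtype.ext (map_mul g.1 _ _)

/-- an automorphism as an automorphism of the ring -/
def autB (B : Subring Ω) (hB : ∀ (σ : Gal(Ω/F)) (x : Ω), x ∈ B → σ x ∈ B)
    (s : Gal(Ω/F)) : B ≃+* B where
  toFun x := ⟨s x.1, hB s x.1 x.2⟩
  invFun x := ⟨s⁻¹ x.1, hB s⁻¹ x.1 x.2⟩
  left_inv x := Subtype.ext (s.symm_apply_apply _)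
  right_inv x := Subtype.ext (s.apply_symm_apply _)
  map_mul' x z := Subtype.ext (map_mul s _ _)
  map_add' x z := Subtype.ext (map_add s _ _)

theorem lift_inertia [IsGalois F Ω] (B : Subring Ω)
    (hB : ∀ (σ : Gal(Ω/F)) (x : Ω), x ∈ B → σ x ∈ B) (N : Subgroup Gal(Ω/F))
    (hN : IsClosed (N : Set Gal(Ω/F))) (s : Gal(Ω/F))
    (hs' : ∀ n ∈ N, s * n * s⁻¹ ∈ N) (P : Ideal B) [hP : P.IsPrime]
    (h : ∀ b : B, (∀ n ∈ N, n (b : Ω) = b) → ∃ z ∈ P, (z : Ω) = s b - b) :
    ∃ n ∈ N, ∀ b : B, ∃ z ∈ P, (z : Ω) = (n * s) b - b := by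
  letI : MulSemiringAction N B := act B hB N
  have hsm : ∀ (g : N) (x : B), ((g • x : B) : Ω) = g.1 x.1 := fun g x => rfl
  haveI : CompactSpace N := isCompact_iff_compactSpace.1 hN.isCompact
  have hopen : ∀ x : B, IsOpen (MulAction.stabilizer N x : Set N) := by
    intro x
    have h1 : IsOpen (MulAction.stabilizer Gal(Ω/F) (x : Ω) : Set Gal(Ω/F)) :=
      stabilizer_isOpen_of_isIntegral (x : Ω)
    have h3 := h1.preimage (continuous_subtype_val (p := fun g => g ∈ N))
    convert h3 using 1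
    ext g
    simp only [SetLike.mem_coe, MulAction.mem_stabilizer_iff, Set.mem_preimage]
    rw [Subtype.ext_iff]
    rfl
  letI : TopologicalSpace B := ⊥
  haveI : DiscreteTopology B := ⟨rfl⟩
  haveI : ContinuousSMul N B := by
    rw [continuousSMul_iff_stabilizer_isOpen]
    exact hopen
  let A := FixedPoints.subring B N
  haveI : SMulCommClass N A B := ⟨fun g a b => by
    show g • ((a : B) * b) = (a : B) * g • b
    rw [smul_mul', a.2 g]⟩
  haveI : Algebra.IsInvariant A B N := ⟨fun b hb => ⟨⟨b, hb⟩, rfl⟩⟩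
  have hfix : ∀ b : B, (∀ g : N, g • b = b) ↔ ∀ n ∈ N, n (b : Ω) = b := by
    intro b
    constructor
    · intro h1 n hn
      exact congrArg Subtype.val (h1 ⟨n, hn⟩)
    · intro h1 g
      exact Subtype.ext (h1 g g.2)
  -- the ideal `s⁻¹ P`
  let Ps : Ideal B := P.comap (autB B hB s : B →+* B)
  have hPs : ∀ b : B, b ∈ Ps ↔ autB B hB s b ∈ P := fun b => Iff.rfl
  haveI : Ps.IsPrime := Ideal.IsPrime.comap _
  obtain ⟨g, hg⟩ := exists_smul_eq hopen P Ps (by
    intro z hz
    rw [hfix] at hz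
    obtain ⟨w, hw, hwz⟩ := h z hz
    have h1 : autB B hB s z = w + z := Subtype.ext (by
      show s z = (w : Ω) + z
      rw [hwz]
      ring)
    rw [hPs, h1]
    exact (Ideal.add_mem_iff_right P hw).symm)
  -- `t = s g` preserves `P`
  have ht : ∀ b : B, autB B hB (s * g.1) b ∈ P ↔ b ∈ P := by
    intro b
    have h1 : autB B hB (s * g.1) b = autB B hB s (g • b) := rfl
    rw [h1, ← hPs, hg, Ideal.smul_mem_pointwise_smul_iff]
  let t : Gal(Ω/F) := s * g.1
  have htdef : t = s * g.1 := rfl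
  let Pa : Ideal A := P.under A
  have hmap : P = P.map (autB B hB t : B →+* B) := by
    ext x
    constructor
    · intro hx
      have h1 : x = autB B hB t ((autB B hB t).symm x) := ((autB B hB t).apply_symm_apply x).symm
      rw [h1]
      refine Ideal.mem_map_of_mem _ ?_
      rw [← ht, ← htdef, (autB B hB t).apply_symm_apply]
      exact hx
    · intro hx
      have h1 : P.map (autB B hB t : B →+* B) ≤ P := by
        rw [Ideal.map_le_iff_le_comap]
        intro z hz
        exact (ht z).2 hz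
      exact h1 hx
  let sb : (B ⧸ P) ≃ₐ[A ⧸ Pa] (B ⧸ P) := AlgEquiv.ofRingEquiv (f := Ideal.quotientEquiv P P
    (autB B hB t) hmap) (by
      intro r
      obtain ⟨a, rfl⟩ := Ideal.Quotient.mk_surjective r
      show Ideal.Quotient.mk P (autB B hB t a.1) = Ideal.Quotient.mk P a.1
      rw [Ideal.Quotient.eq]
      have ha : ∀ n ∈ N, n ((a.1 : B) : Ω) = (a.1 : B) := (hfix a.1).1 a.2
      obtain ⟨w, hw, hwz⟩ := h a.1 ha
      have h1 : autB B hB t a.1 - a.1 = w := Subtype.ext (by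
        show s (g.1 ((a.1 : B) : Ω)) - ((a.1 : B) : Ω) = w
        rw [ha g.1 g.2, hwz])
      rw [h1]
      exact hw)
  obtain ⟨τ, hτ⟩ := Ideal.Quotient.stabilizerHom_surjective_of_profinite (G := N) Pa P sb
  have hτb : ∀ b : B, τ.1 • b - autB B hB t b ∈ P := by
    intro b
    have h1 := DFunLike.congr_fun hτ (Ideal.Quotient.mk P b)
    have h3 : Ideal.Quotient.mk P (τ.1 • b) = Ideal.Quotient.mk P (autB B hB t b) := h1
    rw [Ideal.Quotient.eq] at h3
    exact h3
  have hτP : ∀ b : B, τ.1 • b ∈ P ↔ b ∈ P := by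
    intro b
    have h1 : ∀ N' : Ideal B, τ.1 • P = N' → (τ.1 • b ∈ N' ↔ b ∈ P) := by
      rintro N' rfl
      exact Ideal.smul_mem_pointwise_smul_iff
    exact h1 P τ.2
  -- the element `τ⁻¹ s g = (τ⁻¹ s g s⁻¹) s`
  refine ⟨τ.1.1⁻¹ * (s * g.1 * s⁻¹), N.mul_mem (N.inv_mem τ.1.2) (hs' _ g.2), fun b => ?_⟩
  refine ⟨-(τ.1⁻¹ • (τ.1 • b - autB B hB t b)), ?_, ?_⟩
  · refine P.neg_mem ?_
    rw [← hτP, smul_inv_smul]
    exact hτb b
  · have h1 : τ.1.1⁻¹ * (s * g.1 * s⁻¹) * s = τ.1.1⁻¹ * (s * g.1) := by group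
    rw [h1]
    have h2 : ((-(τ.1⁻¹ • (τ.1 • b - autB B hB t b)) : B) : Ω) =
        -(((τ.1⁻¹ • τ.1 • b : B) : Ω) - ((τ.1⁻¹ • autB B hB t b : B) : Ω)) := by
      rw [smul_sub]
      rfl
    rw [h2, inv_smul_smul, neg_sub]
    rfl

end Pool.Agent.R417.FA
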