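import Pool.Agent.R417.FA.Kuma

/-! Ramification of Kummer extensions over factorial rings. -/

set_option autoImplicit false
set_option linter.unusedVariables false
set_option linter.unusedSectionVars false
set_option linter.style.haveILetI false

namespace Pool.Agent.R417.FA

section

theorem pow_aux {R0 : Type} [CommRing R0] [IsDomain R0] {π : R0} (hπ : Prime π) {x y : R0}
    (hx : ¬ π ∣ x) (hy : ¬ π ∣ y) {s t : ℕ} (h : π ^ s * x = π ^ t * y) : s = t := by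
  have key : ∀ (s t : ℕ) (x y : R0), ¬ π ∣ x → ¬ π ∣ y → π ^ s * x = π ^ t * y → s < t → False := by
    intro s t x y hx hy h hst
    obtain ⟨r, rfl⟩ := Nat.exists_eq_add_of_lt hst
    rw [show s + r + 1 = s + (r + 1) by ring, pow_add, mul_assoc] at h
    have h1 := mul_left_cancel₀ (pow_ne_zero s hπ.ne_zero) h
    apply hx
    rw [h1, pow_succ', mul_assoc]
    exact dvd_mul_right _ _
  rcases lt_trichotomy s t with h1 | h1 | h1
  · exact (key s t x y hx hy h h1).elim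
  · exact h1
  · exact (key t s y x hy hx h.symm h1).elim

theorem val_aux {R0 : Type} [CommRing R0] [IsDomain R0] [UniqueFactorizationMonoid R0] {π : R0}
    (hπ : Prime π) {a b c A : R0} {l e i : ℕ} (hA : ¬ π ∣ A) (hb : b ≠ 0)
    (h : c * b ^ l = a ^ l * (π ^ e * A) ^ i) (hl : ¬ l ∣ e * i) : π ∣ c := by
  by_contra hc
  have ha : a ≠ 0 := by
    rintro rfl
    have hl0 : l ≠ 0 := by
      rintro rfl
      apply hl
      rw [pow_zero, pow_zero, mul_one, one_mul] at h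
      by_cases hi : e * i = 0
      · rw [hi]
      · exfalso
        apply hc
        rw [h, mul_pow, ← pow_mul]
        exact Dvd.dvd.mul_right (dvd_pow_self π hi) _
    rw [zero_pow hl0, zero_mul, mul_eq_zero] at h
    rcases h with h | h
    · apply hc
      rw [h]
      exact dvd_zero _
    · exact pow_ne_zero _ hb h
  obtain ⟨m, b1, hb1, rfl⟩ := WfDvdMonoid.max_power_factor hb hπ.irreducible
  obtain ⟨n, a1, ha1, rfl⟩ := WfDvdMonoid.max_power_factor ha hπ.irreducible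
  have h1 : π ^ (m * l) * (c * b1 ^ l) = π ^ (n * l + e * i) * (a1 ^ l * A ^ i) := by
    rw [mul_pow, mul_pow, mul_pow, ← pow_mul, ← pow_mul, ← pow_mul] at h
    rw [pow_add]
    linear_combination h
  have hnd : ∀ (x : R0) (j : ℕ), ¬ π ∣ x → ¬ π ∣ x ^ j := fun x j hx hj =>
    hx (hπ.dvd_of_dvd_pow hj)
  have h2 := pow_aux hπ (fun h2 => (hπ.dvd_or_dvd h2).elim hc (hnd _ _ hb1))
    (fun h2 => (hπ.dvd_or_dvd h2).elim (hnd _ _ ha1) (hnd _ _ hA)) h1
  apply hl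
  have h3 : l ∣ n * l + e * i := by
    rw [← h2]
    exact dvd_mul_left _ _
  exact (Nat.dvd_add_right (dvd_mul_left l n)).1 h3

/-- factorial rings are integrally closed -/
theorem int_mem {Ω : Type} [Field Ω] (Rb : Subring Ω) [UniqueFactorizationMonoid Rb] {x : Ω}
    (hx : IsIntegral Rb x) {a b : Rb} (hb : b ≠ 0) (h : x * b = a) : x ∈ Rb := by
  have hinj : Function.Injective (Algebra.ofId Rb Ω) := fun y z hyz => Subtype.ext hyz
  let j : FractionRing Rb →ₐ[Rb] Ω := IsFractionRing.liftAlgHom hinj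
  have hj : ∀ r : Rb, j (algebraMap Rb (FractionRing Rb) r) = (r : Ω) := fun r => j.commutes r
  have hb' : (b : Ω) ≠ 0 := fun h0 => hb (Subtype.ext h0)
  have hjx : j (algebraMap Rb (FractionRing Rb) a / algebraMap Rb (FractionRing Rb) b) = x := by
    rw [map_div₀, hj, hj, ← h, mul_div_assoc, div_self hb', mul_one]
  rw [← hjx, isIntegral_algHom_iff j j.toRingHom.injective,
    IsIntegrallyClosed.isIntegral_iff] at hx
  obtain ⟨r, hr⟩ := hx
  rw [← hjx, ← hr, hj]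
  exact r.2

end

section

variable {F Ω : Type} [Field F] [Field Ω] [Algebra F Ω] [IsGalois F Ω] {l : ℕ}

/-- The data: `L` is the fraction field of the factorial ring `Rb`, `B` the integral closure. -/
structure Dat (L : IntermediateField F Ω) (Rb B : Subring Ω) (l : ℕ) (ζ : Ω) : Prop where
  ufd : UniqueFactorizationMonoid Rb
  le : ∀ x ∈ Rb, x ∈ L
  frac : ∀ x ∈ L, ∃ a b : Rb, b ≠ 0 ∧ x * (b : Ω) = a
  leB : Rb ≤ B
  int : ∀ x ∈ B, IsIntegral Rb x
  act : ∀ (σ : Gal(Ω/F)) (x : Ω), x ∈ B → σ x ∈ B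
  root : IsPrimitiveRoot ζ l
  mem : ζ ∈ Rb
  inv : (l : Ω)⁻¹ ∈ Rb
  ne : (l : Ω) ≠ 0

variable {L : IntermediateField F Ω} {Rb B : Subring Ω} {ζ : Ω}

/-- the resolvents -/
noncomputable def DD (l : ℕ) (ζ : Ω) (τ : Gal(Ω/F)) (i : ℕ) (x : Ω) : Ω :=
  ∑ j ∈ Finset.range l, (ζ⁻¹) ^ (i * j) * (τ ^ j) x

theorem sum_DD (hζ : IsPrimitiveRoot ζ l) (hl : 1 < l) (τ : Gal(Ω/F)) (x : Ω) :
    ∑ i ∈ Finset.range l, DD l ζ τ i x = (l : Ω) * x := by
  unfold DD
  rw [Finset.sum_comm]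
  have h1 : ∀ j ∈ Finset.range l, ∑ i ∈ Finset.range l, (ζ⁻¹) ^ (i * j) * (τ ^ j) x =
      if j = 0 then (l : Ω) * x else 0 := by
    intro j hj
    rw [← Finset.sum_mul]
    have h2 : ∀ i ∈ Finset.range l, (ζ⁻¹) ^ (i * j) = ((ζ⁻¹) ^ j) ^ i := by
      intro i _
      rw [← pow_mul, mul_comm]
    rw [Finset.sum_congr rfl h2]
    split_ifs with h0
    · subst h0
      simp
    · have h3 : (ζ⁻¹) ^ j ≠ 1 := hζ.inv.pow_ne_one_of_pos_of_lt h0 (Finset.mem_range.1 hj)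
      have h4 : (∑ i ∈ Finset.range l, ((ζ⁻¹) ^ j) ^ i) * ((ζ⁻¹) ^ j - 1) = 0 := by
        rw [geom_sum_mul, ← pow_mul, mul_comm, pow_mul, hζ.inv.pow_eq_one, one_pow, sub_self]
      rw [(mul_eq_zero.1 h4).resolve_right (sub_ne_zero.2 h3), zero_mul]
  rw [Finset.sum_congr rfl h1, Finset.sum_ite_eq']
  rw [if_pos (Finset.mem_range.2 (by omega))]

theorem tau_DD (hζ : IsPrimitiveRoot ζ l) (hl : 1 < l) (τ : Gal(Ω/F)) (hτ : τ ζ = ζ) (x : Ω)
    (hx : (τ ^ l) x = x) (i : ℕ) : τ (DD l ζ τ i x) = ζ ^ i * DD l ζ τ i x := by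
  have hζ0 : ζ ≠ 0 := hζ.ne_zero (by omega)
  unfold DD
  rw [map_sum, Finset.mul_sum]
  have h1 : ∀ j, τ ((ζ⁻¹) ^ (i * j) * (τ ^ j) x) =
      ζ ^ i * ((ζ⁻¹) ^ (i * (j + 1)) * (τ ^ (j + 1)) x) := by
    intro j
    rw [map_mul, map_pow, map_inv₀, hτ, mul_add, mul_one, pow_add]
    have h2 : τ ((τ ^ j) x) = (τ ^ (j + 1)) x := by
      rw [pow_succ']
      rfl
    rw [h2]
    have h3 : ζ ^ i * (ζ⁻¹) ^ i = 1 := by rw [← mul_pow, mul_inv_cancel₀ hζ0, one_pow]
    linear_combination (-(ζ⁻¹) ^ (i * j) * (τ ^ (j + 1)) x) * h3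
  rw [Finset.sum_congr rfl fun j _ => h1 j, ← Finset.mul_sum, ← Finset.mul_sum]
  congr 1
  have h2 := Finset.sum_range_succ (fun j => (ζ⁻¹) ^ (i * j) * (τ ^ j) x) l
  have h3 := Finset.sum_range_succ' (fun j => (ζ⁻¹) ^ (i * j) * (τ ^ j) x) l
  rw [h2] at h3
  have h4 : (ζ⁻¹) ^ (i * l) * (τ ^ l) x = x := by
    rw [hx, mul_comm i l, pow_mul, hζ.inv.pow_eq_one, one_pow, one_mul]
  have h5 : (ζ⁻¹) ^ (i * 0) * (τ ^ 0) x = x := by
    rw [mul_zero, pow_zero, pow_zero, one_mul]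
    rfl
  rw [h4, h5] at h3
  exact (add_right_cancel h3).symm

theorem ram (D : Dat L Rb B l ζ) (hl : l.Prime) {π A : Rb} (hπ : Prime π) {e : ℕ} (he : ¬ l ∣ e)
    (hA : ¬ π ∣ A) {u : Ω} (hu : u ^ l = (π : Ω) ^ e * (A : Ω)) (hu0 : u ≠ 0)
    (f : L.fixingSubgroup →* Multiplicative (ZMod l))
    (hf : IsOpen (f.ker : Set L.fixingSubgroup))
    (huf : ∀ h : L.fixingSubgroup, (h : Gal(Ω/F)) u =
      ζ ^ (Multiplicative.toAdd (f h)).val * u)
    (hin : ∀ P : Ideal B, P.IsPrime → ∀ τ : L.fixingSubgroup,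
      (∀ b : B, ∃ z ∈ P, (z : Ω) = (τ : Gal(Ω/F)) b - b) → f τ = 1)
    (h0 : L.fixingSubgroup) : f h0 = 1 := by
  classical
  have := D.ufd
  haveI : Fact l.Prime := ⟨hl⟩
  haveI : NeZero l := ⟨hl.ne_zero⟩
  have hζ0 : ζ ≠ 0 := D.root.ne_zero hl.ne_zero
  have hζL : ζ ∈ L := D.le ζ D.mem
  have hfixL : ∀ x ∈ L, ∀ h : L.fixingSubgroup, (h : Gal(Ω/F)) x = x := fun x hx h =>
    (IntermediateField.mem_fixingSubgroup_iff L _).1 h.2 x hx
  have hmemL : ∀ x : Ω, (∀ h : L.fixingSubgroup, (h : Gal(Ω/F)) x = x) → x ∈ L := by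
    intro x hx
    have hgal : IntermediateField.fixedField L.fixingSubgroup = L :=
      InfiniteGalois.fixedField_fixingSubgroup L
    rw [← hgal, IntermediateField.mem_fixedField_iff]
    intro g hg
    exact hx ⟨g, hg⟩
  by_contra hh0
  -- the generator
  obtain ⟨τ, hτ⟩ : ∃ τ, f τ = Multiplicative.ofAdd (1 : ZMod l) := by
    refine ⟨h0 ^ ((Multiplicative.toAdd (f h0))⁻¹ : ZMod l).val, ?_⟩
    apply Multiplicative.toAdd.injective
    have ha : Multiplicative.toAdd (f h0) ≠ 0 := fun h => hh0 (by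
      apply Multiplicative.toAdd.injective
      rw [h, toAdd_one])
    rw [map_pow, toAdd_pow, toAdd_ofAdd, nsmul_eq_mul, ZMod.natCast_zmod_val,
      inv_mul_cancel₀ ha]
  have hτj : ∀ j : ℕ, f (τ ^ j) = Multiplicative.ofAdd (j : ZMod l) := by
    intro j
    rw [map_pow, hτ, ← ofAdd_nsmul, nsmul_eq_mul, mul_one]
  -- a prime ideal containing `π`
  have hπB : (π : Ω) ∈ B := D.leB π.2
  have hnu : ¬ IsUnit (⟨(π : Ω), hπB⟩ : B) := by
    intro hunit
    obtain ⟨w, hw⟩ := hunit.exists_right_inv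
    have h1 : (π : Ω) * (w : Ω) = 1 := congrArg Subtype.val hw
    have h2 : (w : Ω) ∈ Rb := int_mem Rb (D.int w w.2) (a := 1) (b := π) hπ.ne_zero (by
      rw [mul_comm, h1]
      rfl)
    apply hπ.not_isUnit
    exact IsUnit.of_mul_eq_one ⟨w, h2⟩ (Subtype.ext h1)
  obtain ⟨P, hPm, hπP⟩ := exists_max_ideal_of_mem_nonunits hnu
  have hP : P.IsPrime := hPm.isPrime
  -- the kernel
  set N : Subgroup Gal(Ω/F) := f.ker.map L.fixingSubgroup.subtype with hN
  have hNc : IsClosed (N : Set Gal(Ω/F)) := Pool.Agent.W975.UG.closed_map L f.ker hf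
  have hconj : ∀ n ∈ N, (τ : Gal(Ω/F)) * n * (τ : Gal(Ω/F))⁻¹ ∈ N := by
    rintro _ ⟨n, hn, rfl⟩
    refine ⟨τ * n * τ⁻¹, ?_, rfl⟩
    exact (inferInstance : f.ker.Normal).conj_mem n hn τ
  have hker : ∀ (b : B), (∀ n ∈ N, n (b : Ω) = b) →
      ∃ z ∈ P, (z : Ω) = (τ : Gal(Ω/F)) b - b := by
    intro b hb
    have hb' : ∀ n ∈ f.ker, (n : Gal(Ω/F)) (b : Ω) = b := fun n hn => hb n ⟨n, hn, rfl⟩
    have hτl : ((τ : Gal(Ω/F)) ^ l) (b : Ω) = b := by
      have h1 : τ ^ l ∈ f.ker := by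
        rw [MonoidHom.mem_ker, hτj, ZMod.natCast_self, ofAdd_zero]
      exact hb' _ h1
    set w : ℕ → Ω := fun i => DD l ζ (τ : Gal(Ω/F)) i (b : Ω) with hw
    have hτw : ∀ i, (τ : Gal(Ω/F)) (w i) = ζ ^ i * w i := fun i =>
      tau_DD D.root hl.one_lt _ (hfixL ζ hζL τ) _ hτl i
    have hnw : ∀ i, ∀ n ∈ f.ker, (n : Gal(Ω/F)) (w i) = w i := by
      intro i n hn
      rw [hw]
      unfold DD
      simp only []
      rw [map_sum]
      refine Finset.sum_congr rfl fun j _ => ?_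
      rw [map_mul, map_pow, map_inv₀, hfixL ζ hζL]
      congr 1
      have h1 : (τ ^ j)⁻¹ * n * τ ^ j ∈ f.ker := by
        rw [MonoidHom.mem_ker, map_mul, map_mul, map_inv, (MonoidHom.mem_ker).1 hn, mul_one,
          inv_mul_cancel]
      have h2 := hb' _ h1
      have h3 : n * τ ^ j = τ ^ j * ((τ ^ j)⁻¹ * n * τ ^ j) := by group
      have h4 : (n : Gal(Ω/F)) (((τ : Gal(Ω/F)) ^ j) (b : Ω)) =
          ((n * τ ^ j : L.fixingSubgroup) : Gal(Ω/F)) (b : Ω) := rfl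
      rw [h4, h3]
      show ((τ : Gal(Ω/F)) ^ j)
        ((((τ ^ j)⁻¹ * n * τ ^ j : L.fixingSubgroup) : Gal(Ω/F)) (b : Ω)) = _
      rw [h2]
    have hτjw : ∀ i j : ℕ, ((τ ^ j : L.fixingSubgroup) : Gal(Ω/F)) (w i) = ζ ^ (i * j) * w i := by
      intro i j
      induction j with
      | zero =>
        rw [pow_zero, mul_zero, pow_zero, one_mul]
        rfl
      | succ j ih =>
        have h1 : ((τ ^ (j + 1) : L.fixingSubgroup) : Gal(Ω/F)) (w i) =
            (τ : Gal(Ω/F)) (((τ ^ j : L.fixingSubgroup) : Gal(Ω/F)) (w i)) := by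
          rw [pow_succ' τ]
          rfl
        rw [h1, ih, map_mul, map_pow, hfixL ζ hζL, hτw, mul_add, mul_one, pow_add]
        ring
    have hhw : ∀ (i : ℕ) (h : L.fixingSubgroup), (h : Gal(Ω/F)) (w i) =
        ζ ^ (i * (Multiplicative.toAdd (f h)).val) * w i := by
      intro i h
      set a := (Multiplicative.toAdd (f h)).val with ha
      have h1 : (τ ^ a)⁻¹ * h ∈ f.ker := by
        rw [MonoidHom.mem_ker, map_mul, map_inv, hτj, ha, ZMod.natCast_zmod_val, inv_mul_eq_one]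
        rfl
      have h2 : h = τ ^ a * ((τ ^ a)⁻¹ * h) := by group
      have h3 : (h : Gal(Ω/F)) (w i) = ((τ ^ a : L.fixingSubgroup) : Gal(Ω/F))
            ((((τ ^ a)⁻¹ * h : L.fixingSubgroup) : Gal(Ω/F)) (w i)) := by
        conv_lhs => rw [h2]
        rfl
      rw [h3, hnw i _ h1, hτjw]
    have hwB : ∀ i, w i ∈ B := by
      intro i
      refine B.sum_mem fun j _ => B.mul_mem (B.pow_mem ?_ _) ?_
      · have h1 : ζ⁻¹ = ζ ^ (l - 1) := by
          refine (eq_inv_of_mul_eq_one_left ?_).symm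
          rw [← pow_succ, Nat.sub_add_cancel hl.one_lt.le, D.root.pow_eq_one]
        rw [h1]
        exact B.pow_mem (D.leB D.mem) _
      · exact D.act _ _ b.2
    have hwP : ∀ i, i < l → i ≠ 0 → (⟨w i, hwB i⟩ : B) ∈ P := by
      intro i hi hi0
      -- `w ^ l ∈ Rb`
      have h1 : (w i) ^ l ∈ L := by
        refine hmemL _ fun h => ?_
        rw [map_pow, hhw, mul_pow, ← pow_mul, mul_comm _ l, pow_mul, D.root.pow_eq_one, one_pow,
          one_mul]
      obtain ⟨a1, b1, hb1, hab1⟩ := D.frac _ h1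
      have h2 : (w i) ^ l ∈ Rb := int_mem Rb ((D.int _ (hwB i)).pow l) hb1 hab1
      -- `w / u ^ i ∈ L`
      have h3 : w i * (u ^ i)⁻¹ ∈ L := by
        refine hmemL _ fun h => ?_
        rw [map_mul, map_inv₀, map_pow, hhw, huf, mul_pow, ← pow_mul, mul_inv, mul_comm _ i]
        have h4 : ζ ^ (i * (Multiplicative.toAdd (f h)).val) ≠ 0 := pow_ne_zero _ hζ0
        field_simp
      obtain ⟨a, b', hb', hab⟩ := D.frac _ h3
      have h5 : (⟨_, h2⟩ : Rb) * b' ^ l = a ^ l * (π ^ e * A) ^ i := by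
        apply Subtype.ext
        show (w i) ^ l * (b' : Ω) ^ l = (a : Ω) ^ l * ((π : Ω) ^ e * (A : Ω)) ^ i
        rw [← hab, ← hu]
        have h6 : u ^ i ≠ 0 := pow_ne_zero _ hu0
        rw [← pow_mul, mul_comm l i, pow_mul, ← mul_pow, ← mul_pow]
        congr 1
        field_simp
      have h7 : ¬ l ∣ e * i := by
        intro h8
        rcases (Nat.Prime.dvd_mul hl).1 h8 with h9 | h9
        · exact he h9
        · exact absurd (Nat.le_of_dvd (Nat.pos_of_ne_zero hi0) h9) (by omega)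
      obtain ⟨c, hc⟩ := val_aux hπ hA hb' h5 h7
      have h8 : (⟨w i, hwB i⟩ : B) ^ l ∈ P := by
        have h9 : (⟨w i, hwB i⟩ : B) ^ l = ⟨(π : Ω), hπB⟩ * ⟨(c : Ω), D.leB c.2⟩ := by
          apply Subtype.ext
          have h10 : (w i) ^ l = (π : Ω) * (c : Ω) := congrArg (fun z : Rb => (z : Ω)) hc
          exact h10
        rw [h9]
        exact P.mul_mem_right _ hπP
      exact hP.mem_of_pow_mem l h8
    -- the difference
    have hlB : (l : Ω)⁻¹ ∈ B := D.leB D.inv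
    have hζB : ζ ∈ B := D.leB D.mem
    refine ⟨⟨(l : Ω)⁻¹, hlB⟩ * ∑ i ∈ Finset.range l, ((⟨ζ, hζB⟩ : B) ^ i - 1) * ⟨w i, hwB i⟩,
      ?_, ?_⟩
    · refine P.mul_mem_left _ (P.sum_mem fun i hi => ?_)
      by_cases hi0 : i = 0
      · rw [hi0, pow_zero, sub_self, zero_mul]
        exact P.zero_mem
      · exact P.mul_mem_left _ (hwP i (Finset.mem_range.1 hi) hi0)
    · have h1 : ((∑ i ∈ Finset.range l, ((⟨ζ, hζB⟩ : B) ^ i - 1) * ⟨w i, hwB i⟩ : B) : Ω) =
          ∑ i ∈ Finset.range l, (ζ ^ i - 1) * w i := by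
        rw [← Subring.subtype_apply, map_sum]
        rfl
      show (l : Ω)⁻¹ * ((∑ i ∈ Finset.range l, ((⟨ζ, hζB⟩ : B) ^ i - 1) * ⟨w i, hwB i⟩ : B) : Ω) = _
      rw [h1]
      have h2 : ∑ i ∈ Finset.range l, w i = (l : Ω) * b := sum_DD D.root hl.one_lt _ _
      have h3 : ∑ i ∈ Finset.range l, (ζ ^ i - 1) * w i =
          (τ : Gal(Ω/F)) (∑ i ∈ Finset.range l, w i) - ∑ i ∈ Finset.range l, w i := by
        rw [map_sum, ← Finset.sum_sub_distrib]
        refine Finset.sum_congr rfl fun i _ => ?_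
        rw [hτw]
        ring
      rw [h3, h2, map_mul, map_natCast]
      have := D.ne
      field_simp
  obtain ⟨n, hn, hnP⟩ := lift_inertia B D.act N hNc (τ : Gal(Ω/F)) hconj P hker
  obtain ⟨n', hn', rfl⟩ := hn
  have h1 := hin P hP (n' * τ) hnP
  rw [map_mul, (MonoidHom.mem_ker).1 hn', one_mul, hτ] at h1
  have h2 : (1 : ZMod l) = 0 := Multiplicative.ofAdd.injective h1
  exact one_ne_zero h2

end

end Pool.Agent.R417.FA
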